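import Mathlib

/-! Bounded multilinear functions on lists and the averaging homotopy. -/

noncomputable section

namespace Pool.Agent.Lib.MP_08bba9_an

open Filter Topology

variable {A : Type*} [NormedRing A] [NormedAlgebra ℂ A]

/-- multilinear with bound `C` on the lists of length `n` -/
def ML : ℕ → ℝ → (List A → ℂ) → Prop
  | 0, C, Φ => ‖Φ []‖ ≤ C
  | n + 1, C, Φ => (∀ l : List A, l.length = n → IsLinearMap ℂ fun a => Φ (a :: l)) ∧
      ∀ a, ML n (C * ‖a‖) fun l => Φ (a :: l)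

/-- product of the norms -/
def np (l : List A) : ℝ := (l.map norm).prod

omit [NormedAlgebra ℂ A] in
theorem np_nonneg (l : List A) : 0 ≤ np l :=
  List.prod_nonneg fun x hx => by
    obtain ⟨y, -, rfl⟩ := List.mem_map.1 hx
    exact norm_nonneg _

omit [NormedAlgebra ℂ A] in
@[simp] theorem np_nil : np ([] : List A) = 1 := rfl

omit [NormedAlgebra ℂ A] in
@[simp] theorem np_cons (a : A) (l : List A) : np (a :: l) = ‖a‖ * np l := by simp [np]

omit [NormedAlgebra ℂ A] in
@[simp] theorem np_append (l m : List A) : np (l ++ m) = np l * np m := by simp [np]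

/-- uncurry -/
def unc (G : A → List A → ℂ) : List A → ℂ
  | [] => 0
  | a :: l => G a l

namespace ML

variable {n : ℕ} {C C' : ℝ} {Φ Ψ : List A → ℂ}

theorem mono (h : ML n C Φ) (hC : C ≤ C') : ML n C' Φ := by
  induction n generalizing C C' Φ with
  | zero => exact le_trans h hC
  | succ n ih => exact ⟨h.1, fun a => ih (h.2 a) (by gcongr)⟩

theorem congr (h : ML n C Φ) (e : ∀ l, l.length = n → Φ l = Ψ l) : ML n C Ψ := by
  induction n generalizing C Φ Ψ with
  | zero => exact (e [] rfl ▸ h : ‖Ψ []‖ ≤ C)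
  | succ n ih =>
    refine ⟨fun l hl => ?_, fun a => ih (h.2 a) fun l hl => e _ (by simp [hl])⟩
    rw [← funext fun a => e (a :: l) (by simp [hl])]
    exact h.1 l hl

theorem bound (h : ML n C Φ) {l : List A} (hl : l.length = n) : ‖Φ l‖ ≤ C * np l := by
  induction l generalizing n C Φ with
  | nil => subst hl; simpa [ML] using h
  | cons a l ih => subst hl; simpa [mul_assoc] using ih (h.2 a) rfl

theorem zero (n : ℕ) : ML n 0 (0 : List A → ℂ) := by
  induction n with
  | zero => exact norm_zero.le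
  | succ n ih => exact ⟨fun _ _ => ⟨by simp, by simp⟩, fun a => by rw [zero_mul]; exact ih⟩

theorem add (h : ML n C Φ) (h' : ML n C' Ψ) : ML n (C + C') (Φ + Ψ) := by
  induction n generalizing C C' Φ Ψ with
  | zero => exact (norm_add_le _ _).trans (add_le_add h h')
  | succ n ih =>
    refine ⟨fun l hl => ⟨fun x y => ?_, fun c x => ?_⟩, fun a => add_mul C C' _ ▸ ih (h.2 a) (h'.2 a)⟩
    · simp only [Pi.add_apply, (h.1 l hl).1, (h'.1 l hl).1]
      ring
    · simp only [Pi.add_apply, (h.1 l hl).2, (h'.1 l hl).2, smul_add]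

theorem smul (h : ML n C Φ) (c : ℂ) : ML n (‖c‖ * C) (c • Φ) := by
  induction n generalizing C Φ with
  | zero => exact (norm_smul_le c _).trans (mul_le_mul_of_nonneg_left h (norm_nonneg c))
  | succ n ih =>
    refine ⟨fun l hl => ⟨fun x y => ?_, fun c x => ?_⟩, fun a => mul_assoc ‖c‖ C _ ▸ ih (h.2 a)⟩
    · simp only [Pi.smul_apply, (h.1 l hl).1, smul_add]
    · simp only [Pi.smul_apply, (h.1 l hl).2, smul_comm c]

theorem sub (h : ML n C Φ) (h' : ML n C' Ψ) : ML n (C + C') (Φ - Ψ) := by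
  simpa [sub_eq_add_neg] using h.add (h'.smul (-1))

theorem sum {ι : Type*} (s : Finset ι) {C : ι → ℝ} {Φ : ι → List A → ℂ}
    (h : ∀ i, ML n (C i) (Φ i)) : ML n (∑ i ∈ s, C i) (∑ i ∈ s, Φ i) := by
  classical
  induction s using Finset.induction_on with
  | empty => exact zero n
  | insert i s hi ih => simpa only [Finset.sum_insert hi] using (h i).add ih

theorem hd (h : ML (n + 1) C Φ) (hC : 0 ≤ C) (q : A) :
    ML (n + 1) (C * ‖q‖) (unc fun c m => Φ (q * c :: m)) := by
  refine ⟨fun l hl => ⟨fun x y => ?_, fun c x => ?_⟩, fun a => (h.2 (q * a)).mono ?_⟩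
  · simp only [unc, mul_add, (h.1 l hl).1]
  · simp only [unc, mul_smul_comm, (h.1 l hl).2]
  · rw [mul_assoc]
    gcongr
    exact norm_mul_le _ _

theorem lim {ι : Type*} {f : Filter ι} [f.NeBot] {Φ : ι → List A → ℂ} (h : ∀ i, ML n C (Φ i))
    (e : ∀ l, l.length = n → Tendsto (fun i => Φ i l) f (𝓝 (Ψ l))) : ML n C Ψ := by
  induction n generalizing C Φ Ψ with
  | zero => exact le_of_tendsto' (e [] rfl).norm h
  | succ n ih =>
    have e' : ∀ a l, l.length = n → Tendsto (fun i => Φ i (a :: l)) f (𝓝 (Ψ (a :: l))) :=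
      fun a l hl => e _ (by simp [hl])
    refine ⟨fun l hl => ⟨fun x y => ?_, fun c x => ?_⟩, fun a => ih (fun i => (h i).2 a) (e' a)⟩
    · refine tendsto_nhds_unique (e' _ l hl) ?_
      simpa only [((h _).1 l hl).1] using (e' x l hl).add (e' y l hl)
    · refine tendsto_nhds_unique (e' _ l hl) ?_
      simpa only [((h _).1 l hl).2] using (e' x l hl).const_smul c

theorem exlim {ι : Type*} (f : Ultrafilter ι) {Φ : ι → List A → ℂ} (h : ∀ i, ML n C (Φ i)) :
    ∃ Ψ, ML n C Ψ ∧ ∀ l, l.length = n → Tendsto (fun i => Φ i l) f (𝓝 (Ψ l)) := by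
  have : ∀ l : List A, ∃ z, l.length = n → Tendsto (fun i => Φ i l) f (𝓝 z) := fun l => by
    by_cases hl : l.length = n
    · obtain ⟨z, -, hz⟩ := (isCompact_closedBall (0 : ℂ) (C * np l)).ultrafilter_le_nhds'
        (f.map fun i => Φ i l) (mem_map.2 (univ_mem' fun i => by simpa using (h i).bound hl))
      exact ⟨z, fun _ => hz⟩
    · exact ⟨0, fun h => absurd h hl⟩
  choose Ψ hΨ using this
  exact ⟨Ψ, lim h hΨ, hΨ⟩

theorem last (h : ML (n + 1) C Φ) (y : A) : ML n (C * ‖y‖) fun l => Φ (l ++ [y]) := by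
  induction n generalizing C Φ with
  | zero => exact h.2 y
  | succ n ih =>
    exact ⟨fun l hl => h.1 (l ++ [y]) (by simp [hl]), fun a => mul_right_comm C _ _ ▸ ih (h.2 a)⟩

theorem lastLin (h : ML (n + 1) C Φ) {l : List A} (hl : l.length = n) :
    ∃ f : A →L[ℂ] ℂ, ∀ y, f y = Φ (l ++ [y]) := by
  induction l generalizing n C Φ with
  | nil =>
    subst hl
    exact ⟨((h.1 [] rfl).mk' _).mkContinuous C fun y => h.2 y, fun _ => rfl⟩
  | cons a l ih => subst hl; exact ih (h.2 a) rfl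

theorem dense (h : ML n C Φ) {D : Set A} (hD : Dense (Submodule.span ℂ D : Set A))
    (e : ∀ l, l.length = n → (∀ x ∈ l, x ∈ D) → Φ l = 0) {l : List A} (hl : l.length = n) :
    Φ l = 0 := by
  induction l generalizing n C Φ with
  | nil => exact e _ hl (by simp)
  | cons a l ih =>
    subst hl
    let f : A →L[ℂ] ℂ := ((h.1 l rfl).mk' _).mkContinuous (C * np l) fun y =>
      mul_right_comm C _ _ ▸ (h.2 y).bound rfl
    have : f = 0 := ContinuousLinearMap.ext_on hD fun x hx =>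
      ih (h.2 x) (fun m hm h' => e _ (by simp [hm]) (by simpa [hx] using h')) rfl
    exact DFunLike.congr_fun this a

theorem prod (n : ℕ) (f : A →L[ℂ] ℂ) : ML n (‖f‖ * ‖(1 : A)‖) fun l => f l.prod := by
  induction n generalizing f with
  | zero => exact f.le_opNorm _
  | succ n ih =>
    refine ⟨fun l _ => ⟨by simp [add_mul], by simp⟩, fun a =>
      (ih (f ∘L ContinuousLinearMap.mul ℂ A a)).mono ?_⟩
    rw [mul_right_comm]
    gcongr
    exact (f.opNorm_comp_le _).trans (by gcongr; exact ContinuousLinearMap.opNorm_mul_apply_le ..)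

theorem toMulti (h : ML n C Φ) (hC : 0 ≤ C) :
    ∃ f : ContinuousMultilinearMap ℂ (fun _ : Fin n => A) ℂ, ‖f‖ ≤ C ∧
      ∀ a, f a = Φ (List.ofFn a) := by
  induction n generalizing C Φ with
  | zero =>
    exact ⟨.uncurry0 ℂ A (Φ []), by simpa [ML] using h, fun a => by simp⟩
  | succ n ih =>
    choose g h1 h2 using fun a => ih (h.2 a) (by positivity)
    let G : A →L[ℂ] ContinuousMultilinearMap ℂ (fun _ : Fin n => A) ℂ :=
      LinearMap.mkContinuous
        { toFun := g
          map_add' := fun x y => by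
            ext a
            simp [h2, (h.1 (List.ofFn a) (by simp)).1]
          map_smul' := fun x y => by
            ext a
            simp [h2, (h.1 (List.ofFn a) (by simp)).2] } C h1
    refine ⟨G.uncurryLeft (Ei := fun _ : Fin (n + 1) => A), ?_, fun a => ?_⟩
    · rw [ContinuousLinearMap.uncurryLeft_norm]
      exact LinearMap.mkContinuous_norm_le _ hC _
    · rw [List.ofFn_succ]
      exact h2 _ _

theorem ofMulti (f : ContinuousMultilinearMap ℂ (fun _ : Fin n => A) ℂ) :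
    ∃ Φ, ML n ‖f‖ Φ ∧ ∀ a, Φ (List.ofFn a) = f a := by
  suffices H : ∀ (C : ℝ) (Φ : List A → ℂ), ‖f‖ ≤ C → (∀ a, Φ (List.ofFn a) = f a) → ML n C Φ from
    ⟨fun l => f fun i => l.getD i 0, H _ _ le_rfl (by simp), by simp⟩
  induction n with
  | zero =>
    intro C Φ h1 h2
    have := h2 0
    rw [List.ofFn_zero] at this
    change ‖Φ []‖ ≤ C
    rwa [this, ContinuousMultilinearMap.fin0_apply_norm]
  | succ n ih =>
    intro C Φ h1 h2
    have e : ∀ a m, Φ (a :: List.ofFn m) = f.curryLeft a m := fun a m => by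
      rw [ContinuousMultilinearMap.curryLeft_apply, ← h2, List.ofFn_succ]
      simp
    refine ⟨fun l hl => ?_, fun a => ih (f.curryLeft a) _ _ ?_ (e a)⟩
    · subst hl
      rw [← List.ofFn_get l]
      exact ⟨by simp only [e, map_add, add_apply, forall_const],
        by simp only [e, map_smul, smul_apply, forall_const]⟩
    · exact (f.curryLeft.le_opNorm a).trans (by simpa using mul_le_mul_of_nonneg_right h1 (norm_nonneg a))

end ML

/-- restriction to the lists with a given head -/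
abbrev cs (a : A) : (List A → ℂ) →ₗ[ℂ] List A → ℂ := LinearMap.funLeft ℂ ℂ (List.cons a)

/-- the bar coboundary -/
def dl : A → List A → (List A → ℂ) →ₗ[ℂ] ℂ
  | _, [] => 0
  | a, b :: l => LinearMap.proj (a * b :: l) - dl b l ∘ₗ cs a

variable {ι : Type*} [Fintype ι] (p q : ι → A)

/-- averaging over all links -/
def Tl : A → List A → (List A → ℂ) →ₗ[ℂ] ℂ
  | a, [] => LinearMap.proj [a]
  | a, b :: l => ∑ s, Tl (q s * b) l ∘ₗ cs (a * p s)

/-- the homotopy -/
def Hl : A → List A → (List A → ℂ) →ₗ[ℂ] ℂ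
  | _, [] => 0
  | a, b :: l => ∑ s, (LinearMap.proj (a * p s :: q s :: b :: l) - Hl (q s * b) l ∘ₗ cs (a * p s))

/-- the coboundary of a function on lists -/
def dL (Φ : List A → ℂ) : List A → ℂ := unc fun a l => dl a l Φ

def TL (Φ : List A → ℂ) : List A → ℂ := unc fun a l => Tl p q a l Φ

def HL (Φ : List A → ℂ) : List A → ℂ := unc fun a l => Hl p q a l Φ

omit [NormedAlgebra ℂ A] in
theorem dl_cons (a b : A) (l : List A) (Φ : List A → ℂ) :
    dl a (b :: l) Φ = Φ (a * b :: l) - dl b l (cs a Φ) := rfl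

omit [NormedAlgebra ℂ A] in
theorem Tl_cons (a b : A) (l : List A) (Φ : List A → ℂ) :
    Tl p q a (b :: l) Φ = ∑ s, Tl p q (q s * b) l (cs (a * p s) Φ) := by
  simp [Tl]

omit [NormedAlgebra ℂ A] in
theorem Hl_cons (a b : A) (l : List A) (Φ : List A → ℂ) : Hl p q a (b :: l) Φ =
    ∑ s, (Φ (a * p s :: q s :: b :: l) - Hl p q (q s * b) l (cs (a * p s) Φ)) := by
  simp [Hl]

omit [NormedAlgebra ℂ A] in
theorem dl_hd (c a : A) (l : List A) (Φ : List A → ℂ) :
    dl a l (unc fun x m => Φ (c * x :: m)) = dl (c * a) l Φ := by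
  cases l with
  | nil => rfl
  | cons b l => rw [dl_cons, dl_cons, mul_assoc]; rfl

omit [NormedAlgebra ℂ A] in
theorem Hl_hd (c a : A) (l : List A) (Φ : List A → ℂ) :
    Hl p q a l (unc fun x m => Φ (c * x :: m)) = Hl p q (c * a) l Φ := by
  cases l with
  | nil => rfl
  | cons b l => simp only [Hl_cons, mul_assoc]; rfl

omit [NormedAlgebra ℂ A] in
theorem cs_dL (a : A) (Φ : List A → ℂ) :
    cs a (dL Φ) = (unc fun x m => Φ (a * x :: m)) - dL (cs a Φ) := by
  funext m
  cases m with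
  | nil => exact (sub_self _).symm
  | cons b l => rfl

omit [NormedAlgebra ℂ A] in
theorem dl_dL (a : A) (l : List A) (Φ : List A → ℂ) : dl a l (dL Φ) = 0 := by
  induction l generalizing a Φ with
  | nil => rfl
  | cons b l ih => rw [dl_cons, cs_dL, map_sub, ih, dl_hd, sub_zero]; exact sub_self _

omit [NormedAlgebra ℂ A] in
theorem cs_HL (a : A) (Φ : List A → ℂ) : cs a (HL p q Φ) =
    ∑ s, ((unc fun x m => Φ (a * p s :: q s :: x :: m)) -
      unc fun x m => HL p q (cs (a * p s) Φ) (q s * x :: m)) := by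
  funext m
  cases m with
  | nil => simp [HL, unc, Hl]
  | cons b l => simp only [Finset.sum_apply]; exact Hl_cons ..

omit [NormedAlgebra ℂ A] in
theorem cs_TL (a : A) (Φ : List A → ℂ) (b : A) (l : List A) : cs a (TL p q Φ) (b :: l) =
    (∑ s, unc fun x m => TL p q (cs (a * p s) Φ) (q s * x :: m)) (b :: l) := by
  simp only [Finset.sum_apply]
  exact Tl_cons ..

omit [NormedAlgebra ℂ A] in
theorem dl_unc (a : A) (l : List A) (Φ : List A → ℂ) :
    dl a l (unc fun x m => Φ (x :: m)) = dl a l Φ := by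
  simpa using dl_hd 1 a l Φ

variable {p q} {n : ℕ} {C K : ℝ} {Φ : List A → ℂ}

theorem ML.cs_lin (h : ML (n + 1) C Φ) {L : (List A → ℂ) →ₗ[ℂ] ℂ}
    (hL : ∀ Φ : List A → ℂ, (∀ l, l.length = n → Φ l = 0) → L Φ = 0) :
    IsLinearMap ℂ fun a => L (cs a Φ) := by
  refine ⟨fun x y => ?_, fun c x => ?_⟩
  · rw [← map_add, ← sub_eq_zero, ← map_sub]
    exact hL _ fun l hl => sub_eq_zero.2 ((h.1 l hl).1 x y)
  · rw [← map_smul, ← sub_eq_zero, ← map_sub]
    exact hL _ fun l hl => sub_eq_zero.2 ((h.1 l hl).2 c x)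

omit [NormedAlgebra ℂ A] in
theorem dl_zero (a : A) (l : List A) (h : ∀ m, m.length = l.length → Φ m = 0) : dl a l Φ = 0 := by
  induction l generalizing a Φ with
  | nil => rfl
  | cons b l ih =>
    rw [dl_cons, h (a * b :: l) rfl, ih (Φ := cs a Φ) b fun m hm => h _ (by simp [hm]), sub_zero]

omit [NormedAlgebra ℂ A] in
theorem Tl_zero (a : A) (l : List A) (h : ∀ m, m.length = l.length + 1 → Φ m = 0) :
    Tl p q a l Φ = 0 := by
  induction l generalizing a Φ with
  | nil => exact h _ rfl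
  | cons b l ih =>
    rw [Tl_cons]
    exact Finset.sum_eq_zero fun s _ => ih _ fun m hm => h _ (by simp [hm])

omit [NormedAlgebra ℂ A] in
theorem Hl_zero (a : A) (l : List A) (h : ∀ m, m.length = l.length + 2 → Φ m = 0) :
    Hl p q a l Φ = 0 := by
  induction l generalizing a Φ with
  | nil => rfl
  | cons b l ih =>
    rw [Hl_cons]
    exact Finset.sum_eq_zero fun s _ => by
      rw [h (_ :: _ :: b :: l) rfl, ih (Φ := cs _ Φ) _ fun m hm => h _ (by simp [hm]), sub_zero]

theorem lin_sum {f : ι → A → ℂ} (h : ∀ s, IsLinearMap ℂ (f s)) :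
    IsLinearMap ℂ fun a => ∑ s, f s (a * p s) :=
  ⟨fun x y => by simp only [add_mul, (h _).1, Finset.sum_add_distrib],
    fun c x => by simp only [smul_mul_assoc, (h _).2, Finset.smul_sum]⟩

theorem ML.TL (h : ML (n + 1) C Φ) (hC : 0 ≤ C) (hK : ∑ s, ‖p s‖ * ‖q s‖ ≤ K) :
    ML (n + 1) (C * K ^ n) (TL p q Φ) := by
  have K0 : 0 ≤ K := le_trans (by positivity) hK
  induction n generalizing C Φ with
  | zero =>
    refine (h.mono (by simp)).congr fun l hl => ?_
    obtain ⟨a, rfl⟩ := List.length_eq_one_iff.1 hl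
    rfl
  | succ n ih =>
    refine ⟨fun l hl => ?_, fun a => ?_⟩
    · obtain ⟨b, l, rfl⟩ := List.exists_cons_of_length_eq_add_one hl
      simp only [MP_08bba9_an.TL, unc, Tl_cons]
      exact lin_sum fun s => h.cs_lin fun Φ e => Tl_zero _ _ fun m hm => e m (by simp at hl; omega)
    · refine ((ML.sum Finset.univ fun s => (ih (h.2 (a * p s)) (by positivity)).hd (by positivity)
        (q s)).mono ?_).congr fun l hl => ?_
      · calc _ ≤ ∑ s, C * ‖a‖ * K ^ n * (‖p s‖ * ‖q s‖) := Finset.sum_le_sum fun s _ => by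
              grw [norm_mul_le]
              exact le_of_eq (by ring)
          _ ≤ C * ‖a‖ * K ^ n * K := by rw [← Finset.mul_sum]; gcongr
          _ = _ := by ring
      · obtain ⟨b, l, rfl⟩ := List.exists_cons_of_length_eq_add_one hl
        exact (cs_TL ..).symm

/-- the bound of the homotopy -/
def hb (K : ℝ) : ℕ → ℝ
  | 0 => 0
  | n + 1 => K * (1 + hb K n)

theorem hb_nonneg (hK : 0 ≤ K) (n : ℕ) : 0 ≤ hb K n := by
  induction n with
  | zero => exact le_rfl
  | succ n ih => exact mul_nonneg hK (by positivity)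

theorem ML.HL (h : ML (n + 2) C Φ) (hC : 0 ≤ C) (hK : ∑ s, ‖p s‖ * ‖q s‖ ≤ K) :
    ML (n + 1) (C * hb K n) (HL p q Φ) := by
  have K0 : 0 ≤ K := le_trans (by positivity) hK
  induction n generalizing C Φ with
  | zero =>
    refine ((ML.zero 1).mono (by simp [hb])).congr fun l hl => ?_
    obtain ⟨a, rfl⟩ := List.length_eq_one_iff.1 hl
    rfl
  | succ n ih =>
    have := hb_nonneg K0 n
    refine ⟨fun l hl => ?_, fun a => ?_⟩
    · obtain ⟨b, l, rfl⟩ := List.exists_cons_of_length_eq_add_one hl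
      simp only [MP_08bba9_an.HL, unc, Hl_cons]
      exact lin_sum (f := fun s x => (LinearMap.proj (q s :: b :: l) -
          Hl p q (q s * b) l : (List A → ℂ) →ₗ[ℂ] ℂ) (cs x Φ)) fun s => h.cs_lin fun Φ e =>
        sub_eq_zero.2 ((e _ (by simp at hl ⊢; omega)).trans
          (Hl_zero _ _ fun m hm => e m (by simp at hl; omega)).symm)
    · refine ((ML.sum Finset.univ fun s => ((h.2 (a * p s)).2 (q s)).sub
        ((ih (h.2 (a * p s)) (by positivity)).hd (by positivity) (q s))).mono ?_).congr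
        fun l hl => ?_
      · calc _ ≤ ∑ s, C * ‖a‖ * (1 + hb K n) * (‖p s‖ * ‖q s‖) := Finset.sum_le_sum fun s _ => by
              grw [norm_mul_le]
              exact le_of_eq (by ring)
          _ ≤ C * ‖a‖ * (1 + hb K n) * K := by rw [← Finset.mul_sum]; gcongr
          _ = _ := by rw [hb]; ring
      · obtain ⟨b, l, rfl⟩ := List.exists_cons_of_length_eq_add_one hl
        simp only [Finset.sum_apply]
        exact (Hl_cons ..).symm

theorem lin_pq (hpq : ∑ s, p s * q s = 1) {f : A → ℂ} (h : IsLinearMap ℂ f) (a b : A) :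
    ∑ s, f (a * p s * (q s * b)) = f (a * b) := by
  have := map_sum (h.mk' f) (fun s => a * p s * (q s * b)) Finset.univ
  simp only [IsLinearMap.mk'_apply] at this
  rw [← this]
  simp only [mul_assoc, ← Finset.mul_sum]
  simp only [← mul_assoc, ← Finset.sum_mul, hpq, one_mul]

/-- the averaging is homotopic to the identity -/
theorem homotopy (hpq : ∑ s, p s * q s = 1) (hC : 0 ≤ C) (a : A) (l : List A)
    (h : ML (l.length + 1) C Φ) :
    Hl p q a l (dL Φ) + dl a l (HL p q Φ) = Φ (a :: l) - Tl p q a l Φ := by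
  induction l generalizing a C Φ with
  | nil => simp [Hl, dl, Tl]
  | cons b l ih =>
    have e1 : ∑ s, Φ (a * p s * q s :: b :: l) = Φ (a :: b :: l) := by
      simpa using lin_pq hpq (h.1 (b :: l) rfl) a 1
    have e2 : ∑ s, Hl p q (a * p s * (q s * b)) l Φ = Hl p q (a * b) l Φ :=
      lin_pq hpq ((h.HL hC le_rfl).1 l rfl) a b
    have e3 := fun s => ih (Φ := cs (a * p s) Φ) (by positivity) (q s * b) (h.2 (a * p s))
    rw [Hl_cons, dl_cons, Tl_cons, cs_HL, map_sum]
    simp only [cs_dL, map_sub, Hl_hd, dl_hd]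
    rw [← e1, show HL p q Φ (a * b :: l) = _ from e2.symm]
    simp only [← Finset.sum_sub_distrib, ← Finset.sum_add_distrib]
    refine Finset.sum_congr rfl fun s _ => ?_
    have e4 : dL Φ (a * p s :: q s :: b :: l) = Φ (a * p s * q s :: b :: l) -
        (Φ (a * p s :: q s * b :: l) - dl b l (cs (q s) (cs (a * p s) Φ))) := rfl
    have e5 : dl b l (unc fun x m => Φ (a * p s :: q s :: x :: m)) =
        dl b l (cs (q s) (cs (a * p s) Φ)) := dl_unc b l (cs (q s) (cs (a * p s) Φ))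
    have e6 : cs (a * p s) Φ (q s * b :: l) = Φ (a * p s :: q s * b :: l) := rfl
    rw [e4, e5]
    linear_combination e3 s + e6

/-- the outer entries act on each other -/
def OB (n : ℕ) (Φ : List A → ℂ) : Prop :=
  ∀ c a y m, m.length = n → Φ (c * a :: (m ++ [y])) = Φ (a :: (m ++ [y * c]))

omit [NormedAlgebra ℂ A] in
theorem Tl_hd (c a : A) (l : List A) (Φ : List A → ℂ) :
    Tl p q a l (unc fun x m => Φ (c * x :: m)) = Tl p q (c * a) l Φ := by
  cases l with
  | nil => rfl
  | cons b l => simp only [Tl_cons, mul_assoc]; rfl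

omit [NormedAlgebra ℂ A] in
theorem Hl_rel {Ψ : List A → ℂ} {c : A} (b y : A) (l : List A)
    (h : ∀ m y, m.length = l.length + 2 → Φ (m ++ [y]) = Ψ (m ++ [y * c])) :
    Hl p q b (l ++ [y]) Φ = Hl p q b (l ++ [y * c]) Ψ := by
  induction l generalizing b Φ Ψ with
  | nil => simp only [List.nil_append, Hl_cons]; exact Finset.sum_congr rfl fun s _ =>
      congrArg (· - 0) (h [_, _] y rfl)
  | cons x l ih =>
    simp only [List.cons_append, Hl_cons]
    exact Finset.sum_congr rfl fun s _ => congrArg₂ _ (h (_ :: _ :: x :: l) y rfl)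
      (ih _ fun m y hm => h (_ :: m) y (by simp [hm]))

omit [NormedAlgebra ℂ A] in
theorem Tl_rel {Ψ : List A → ℂ} {c : A} (b y : A) (l : List A)
    (h : ∀ m y, m.length = l.length + 1 → Φ (m ++ [y]) = Ψ (m ++ [y * c])) :
    Tl p q b (l ++ [y]) Φ = Tl p q b (l ++ [y * c]) Ψ := by
  induction l generalizing b Φ Ψ with
  | nil =>
    simp only [List.nil_append, Tl_cons, ← mul_assoc]
    exact Finset.sum_congr rfl fun s _ => h [_] _ rfl
  | cons x l ih =>
    simp only [List.cons_append, Tl_cons]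
    exact Finset.sum_congr rfl fun s _ => ih _ fun m y hm => h (_ :: m) y (by simp [hm])

omit [NormedAlgebra ℂ A] in
theorem OB.HL (h : OB (n + 1) Φ) : OB n (HL p q Φ) := fun c a y l hl =>
  (Hl_hd p q c a _ Φ).symm.trans (Hl_rel a y l fun m y hm => by
    obtain ⟨x, m, rfl⟩ := List.exists_cons_of_length_eq_add_one hm
    exact h c x y m (by simp at hm; omega))

omit [NormedAlgebra ℂ A] in
theorem OB.TL (h : OB n Φ) : OB n (TL p q Φ) := fun c a y l hl =>
  (Tl_hd c a _ Φ).symm.trans (Tl_rel a y l fun m y hm => by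
    obtain ⟨x, m, rfl⟩ := List.exists_cons_of_length_eq_add_one hm
    exact h c x y m (by simp at hm; omega))

omit [NormedAlgebra ℂ A] in
theorem OB.lim {κ : Type*} {f : Filter κ} [f.NeBot] {Φ : κ → List A → ℂ} {Ψ : List A → ℂ}
    (h : ∀ i, OB n (Φ i)) (e : ∀ l, l.length = n + 2 → Tendsto (fun i => Φ i l) f (𝓝 (Ψ l))) :
    OB n Ψ := fun c a y m hm =>
  tendsto_nhds_unique (e _ (by simp [hm])) (by simpa only [h _ c a y m hm] using e _ (by simp [hm]))

omit [NormedAlgebra ℂ A] in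
theorem dl_lim {κ : Type*} {f : Filter κ} {Φ : κ → List A → ℂ} {Ψ : List A → ℂ} (a : A)
    (l : List A) (e : ∀ m, m.length = l.length → Tendsto (fun i => Φ i m) f (𝓝 (Ψ m))) :
    Tendsto (fun i => dl a l (Φ i)) f (𝓝 (dl a l Ψ)) := by
  induction l generalizing a Φ Ψ with
  | nil => exact tendsto_const_nhds
  | cons b l ih => exact (e (a * b :: l) rfl).sub (ih b fun m hm => e (a :: m) (by simp [hm]))

/-- cocycles of degree `n` -/
structure Zl (n : ℕ) (C : ℝ) (Φ : List A → ℂ) : Prop where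
  c0 : 0 ≤ C
  ml : ML (n + 2) C Φ
  ob : OB n Φ
  z : ∀ l, l.length = n + 3 → dL Φ l = 0

/-- coboundaries of degree `n + 1` -/
def Bl (n : ℕ) (Φ : List A → ℂ) : Prop :=
  ∃ C Ψ, 0 ≤ C ∧ ML (n + 2) C Ψ ∧ OB n Ψ ∧ ∀ l, l.length = n + 3 → Φ l = dL Ψ l

omit [NormedAlgebra ℂ A] in
theorem dL_add (Φ Ψ : List A → ℂ) : dL (Φ + Ψ) = dL Φ + dL Ψ := by
  funext l
  cases l with
  | nil => exact (add_zero _).symm
  | cons a l => exact map_add (dl a l) _ _

theorem Bl.add {Ψ : List A → ℂ} (h : Bl n Φ) (h' : Bl n Ψ) : Bl n (Φ + Ψ) := by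
  obtain ⟨C, F, h0, h1, h2, h3⟩ := h
  obtain ⟨C', G, k0, k1, k2, k3⟩ := h'
  exact ⟨C + C', F + G, by positivity, h1.add k1, fun c a y m hm =>
    congrArg₂ (· + ·) (h2 c a y m hm) (k2 c a y m hm),
    fun l hl => dL_add F G ▸ congrArg₂ (· + ·) (h3 l hl) (k3 l hl)⟩

/-- limits of averages of a cocycle are cohomologous to it -/
theorem Zl.lim {κ : Type*} (f : Ultrafilter κ) {ι : κ → Type*} [∀ i, Fintype (ι i)]
    {p q : ∀ i, ι i → A} (hpq : ∀ i, ∑ s, p i s * q i s = 1)
    (hK : ∀ i, ∑ s, ‖p i s‖ * ‖q i s‖ ≤ K) (h : Zl (n + 1) C Φ) :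
    ∃ Φ', Zl (n + 1) (C * K ^ (n + 2)) Φ' ∧ Bl n (Φ - Φ') ∧
      ∀ l, l.length = n + 3 → Tendsto (fun i => TL (p i) (q i) Φ l) f (𝓝 (Φ' l)) := by
  obtain ⟨i0⟩ := f.neBot.nonempty
  have K0 : 0 ≤ K := le_trans (by positivity) (hK i0)
  have c0 := h.c0
  obtain ⟨Ψ, h1, h2⟩ := ML.exlim f fun i => h.ml.HL c0 (hK i)
  have h3 : ∀ l, l.length = n + 3 →
      Tendsto (fun i => TL (p i) (q i) Φ l) f (𝓝 ((Φ - dL Ψ) l)) := fun l hl => by
    obtain ⟨a, l, rfl⟩ := List.exists_cons_of_length_eq_add_one hl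
    have hl' : l.length = n + 2 := by simpa using hl
    refine (tendsto_const_nhds.sub (dl_lim a l fun m hm => h2 m (hm.trans hl'))).congr fun i => ?_
    have := homotopy (hpq i) c0 a l (by rw [hl']; exact h.ml)
    rw [Hl_zero _ _ fun m hm => h.z m (by omega)] at this
    change Φ (a :: l) - dl a l _ = Tl (p i) (q i) a l Φ
    linear_combination -this
  refine ⟨Φ - dL Ψ, ⟨by positivity, ML.lim (fun i => h.ml.TL c0 (hK i)) h3,
    OB.lim (fun i => h.ob.TL) h3, fun l hl => ?_⟩, ⟨_, Ψ, mul_nonneg c0 (hb_nonneg K0 _), h1,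
      OB.lim (fun i => h.ob.HL) h2, fun l _ => by simp⟩, h3⟩
  obtain ⟨a, l, rfl⟩ := List.exists_cons_of_length_eq_add_one hl
  exact (map_sub (dl a l) _ _).trans (by rw [dl_dL, sub_zero]; exact h.z _ hl)

/-- an approximate diagonal gives approximately balanced averages -/
theorem TL_bal {β : A} {ε : ℝ} (hε : 0 ≤ ε) (hK : ∑ s, ‖p s‖ * ‖q s‖ ≤ K)
    (hd : ∀ (G : A → A → ℂ) (M : ℝ), 0 ≤ M → (∀ v, IsLinearMap ℂ (G · v)) →
      (∀ u, IsLinearMap ℂ (G u)) → (∀ u v, ‖G u v‖ ≤ M * ‖u‖ * ‖v‖) →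
        ‖∑ s, G (β * p s) (q s) - ∑ s, G (p s) (q s * β)‖ ≤ ε * M)
    (y : A) (l₂ : List A) (k : ℕ) (l₁ : List A) (hl : l₁.length = k) (x : A) (hC : 0 ≤ C)
    (h : ML (k + l₂.length + 2) C Φ) :
    ‖TL p q Φ (l₁ ++ x * β :: y :: l₂) - TL p q Φ (l₁ ++ x :: β * y :: l₂)‖ ≤
      ε * (C * K ^ (k + l₂.length) * (np l₁ * ‖x‖) * ‖y‖ * np l₂) := by
  have K0 : 0 ≤ K := le_trans (by positivity) hK
  have := np_nonneg l₂
  induction k generalizing l₁ x C Φ with
  | zero =>
    obtain rfl := List.length_eq_zero_iff.1 hl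
    rw [zero_add] at h ⊢
    have hT := fun u => ML.TL (h.2 (x * u)) (by positivity) hK
    have hL := fun v => h.cs_lin (L := Tl p q (v * y) l₂) fun Φ e => Tl_zero _ _ e
    have := hd (fun u v => Tl p q (v * y) l₂ (cs (x * u) Φ))
      (C * K ^ l₂.length * (np ([] : List A) * ‖x‖) * ‖y‖ * np l₂) ?_
      (fun v => ⟨fun a b => by rw [mul_add, (hL v).1], fun a b => by rw [mul_smul_comm, (hL v).2]⟩)
      (fun u => ⟨fun a b => by rw [add_mul]; exact ((hT u).1 l₂ rfl).1 _ _,
        fun a b => by rw [smul_mul_assoc]; exact ((hT u).1 l₂ rfl).2 _ _⟩)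
      fun u v => ?_
    · simpa only [List.nil_append, TL, unc, Tl_cons, mul_assoc] using this
    · rw [np_nil]
      positivity
    · refine ((hT u).bound (l := v * y :: l₂) rfl).trans ?_
      rw [np_cons]
      grw [norm_mul_le, norm_mul_le]
      exact le_of_eq (by rw [np_nil]; ring)
  | succ k ih =>
    obtain ⟨a, l₁, rfl⟩ := List.exists_cons_of_length_eq_add_one hl
    rw [show k + 1 + l₂.length + 2 = k + l₂.length + 2 + 1 by omega] at h
    have key : ∀ (b c : A) (l m : List A) (N : ℝ), 0 ≤ N → (∀ s,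
        ‖TL p q (cs (a * p s) Φ) (q s * b :: l) - TL p q (cs (a * p s) Φ) (q s * c :: m)‖ ≤
          ε * (C * ‖a * p s‖ * K ^ (k + l₂.length) * (‖q s‖ * N) * ‖y‖ * np l₂)) →
        ‖TL p q Φ (a :: b :: l) - TL p q Φ (a :: c :: m)‖ ≤
          ε * (C * K ^ (k + 1 + l₂.length) * (‖a‖ * N) * ‖y‖ * np l₂) := fun b c l m N hN e => by
      simp only [TL, unc, Tl_cons, ← Finset.sum_sub_distrib] at e ⊢
      calc _ ≤ ∑ s, ε * (C * K ^ (k + l₂.length) * (‖a‖ * N) * ‖y‖ * np l₂) * (‖p s‖ * ‖q s‖) :=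
            norm_sum_le_of_le _ fun s _ => (e s).trans (by
              grw [norm_mul_le]
              exact le_of_eq (by ring))
        _ ≤ ε * (C * K ^ (k + l₂.length) * (‖a‖ * N) * ‖y‖ * np l₂) * K := by
            rw [← Finset.mul_sum]
            gcongr
        _ = _ := by ring
    cases l₁ with
    | nil =>
      rw [np_cons, np_nil, mul_one]
      refine key _ _ _ _ _ (norm_nonneg _) fun s => ?_
      rw [← mul_assoc]
      refine (ih [] (Nat.succ_injective hl) (q s * x) (by positivity) (h.2 (a * p s))).trans ?_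
      rw [np_nil, one_mul]
      grw [norm_mul_le (q s)]
    | cons b l₁ =>
      have := np_nonneg l₁
      rw [np_cons, mul_assoc ‖a‖]
      refine key _ _ _ _ _ (mul_nonneg (np_nonneg _) (norm_nonneg _)) fun s => ?_
      refine (ih (q s * b :: l₁) (by simpa using hl) x (by positivity) (h.2 (a * p s))).trans ?_
      rw [np_cons, np_cons]
      grw [norm_mul_le (q s)]
      exact le_of_eq (by ring)

end Pool.Agent.Lib.MP_08bba9_an
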