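import Pool.Agent.Lib.MP_08bba9_an.Defs
import Pool.Agent.Lib.MP_08bba9_an.Lst

/-! Cocycles are cohomologous to cocycles balanced over an amenable subalgebra. -/

noncomputable section

namespace Pool.Agent.Lib.MP_08bba9_an

open Filter Topology PiTensorProduct
open scoped TensorProduct

variable {A B : Type*} [NormedRing A] [NormedAlgebra ℂ A] [NormedRing B] [NormedAlgebra ℂ B]
  {F : Type*} [NormedAddCommGroup F] [NormedSpace ℂ F] [CompleteSpace F] {n : ℕ}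

theorem lin_le (g : Multi B F n) (x : Chain B n) : ‖lin g x‖ ≤ ‖g‖ * ‖x‖ := by
  induction x using UniformSpace.Completion.induction_on with
  | hp => exact isClosed_le (by fun_prop) (by fun_prop)
  | ih x => simpa [lin] using norm_eval_le_projectiveSeminorm g x

theorem ex_rep (x : ⨂[ℂ] _ : Fin 2, B) {K : ℝ} (hx : ‖x‖ < K) :
    ∃ (k : ℕ) (p q : Fin k → B), ∑ s, ‖p s‖ * ‖q s‖ ≤ K ∧
      (x : Chain B 1) = ∑ s, tens B 1 ![p s, q s] := by
  have := (nonempty_lifts x).to_subtype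
  obtain ⟨⟨l, h1⟩, h2⟩ := exists_lt_of_ciInf_lt hx
  refine ⟨l.toList.length, fun s => l.toList[s].1 • l.toList[s].2 0, fun s => l.toList[s].2 1,
    le_trans (le_of_eq ?_) h2.le, ?_⟩
  · simp only [projectiveSeminormAux, ← Fin.sum_univ_fun_getElem, norm_smul, Fin.prod_univ_two,
      mul_assoc, Fin.getElem_fin]
  · rw [← (mem_lifts_iff _ _).1 h1, ← Fin.sum_univ_fun_getElem,
      ← UniformSpace.Completion.coe_toComplL (𝕜 := ℂ), map_sum]
    refine Finset.sum_congr rfl fun s _ => ?_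
    rw [map_smul]
    have key (z : ℂ × (Fin 2 → B)) : z.1 • tens B 1 z.2 = tens B 1 ![z.1 • z.2 0, z.2 1] :=
      (congrArg _ (congrArg (tens B 1) (by ext i; fin_cases i <;> rfl))).trans
        ((tens B 1).cons_smul ![z.2 1] z.1 (z.2 0)).symm
    exact key _

/-- `∑ p ⊗ q` almost commutes with `β` -/
def Ad {ι : Type*} [Fintype ι] (p q : ι → A) (β : A) (ε : ℝ) : Prop :=
  ∀ (G : A → A → ℂ) (M : ℝ), 0 ≤ M → (∀ v, IsLinearMap ℂ (G · v)) →
    (∀ u, IsLinearMap ℂ (G u)) → (∀ u v, ‖G u v‖ ≤ M * ‖u‖ * ‖v‖) →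
      ‖∑ s, G (β * p s) (q s) - ∑ s, G (p s) (q s * β)‖ ≤ ε * M

theorem IsAmenable.diag [CompleteSpace B] (h : IsAmenable B) : ∃ K : ℝ, ∀ (S : Finset B) (ε : ℝ),
    0 < ε → ∃ (k : ℕ) (p q : Option (Fin k) → B), ∑ s, p s * q s = 1 ∧
      ∑ s, ‖p s‖ * ‖q s‖ ≤ K ∧ ∀ β ∈ S, Ad p q β ε := by
  obtain ⟨K, h⟩ := h
  refine ⟨2 * ‖(1 : B)‖ + (K + 1), fun S ε hε => ?_⟩
  set R := 2 + 2 * (∑ β ∈ S, ‖β‖) * (‖(1 : B)‖ + 1)
  have R0 : 0 < R := by positivity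
  set δ := min 1 (ε / R)
  have δ0 : 0 < δ := by positivity
  have δ1 : δ * R ≤ ε := (le_div_iff₀ R0).1 (min_le_right _ _)
  obtain ⟨m, h1, h2, h3⟩ := h S δ δ0
  set π := lin (ContinuousMultilinearMap.mkPiAlgebraFin ℂ 2 B)
  set L := fun a => lin ((tens B 1).compContinuousLinearMap ![ContinuousLinearMap.mul ℂ B a, 1])
  set L' := fun a =>
    lin ((tens B 1).compContinuousLinearMap ![1, (ContinuousLinearMap.mul ℂ B).flip a])
  obtain ⟨x, k1, k2, k3⟩ := UniformSpace.Completion.denseRange_coe.exists_mem_open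
    (s := {m : Chain B 1 | ‖m‖ < K + 1} ∩ ({m | ‖π m - 1‖ < 2 * δ} ∩
      ⋂ a ∈ S, {m | ‖L a m - L' a m‖ < 2 * δ}))
    ((isOpen_lt (by fun_prop) (by fun_prop)).inter ((isOpen_lt (by fun_prop) (by fun_prop)).inter
      (isOpen_biInter_finset fun a _ => isOpen_lt (by fun_prop) (by fun_prop))))
    ⟨m, by simpa using h1.trans_lt (lt_add_one _), h2.trans_lt (by linarith),
      Set.mem_biInter fun a ha => (h3 a ha).trans_lt (by linarith)⟩
  obtain ⟨k, p, q, e1, e2⟩ := ex_rep x (K := K + 1) (by simpa using k1)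
  have e3 : π x = ∑ s, p s * q s := by simp [e2, π]
  have k4 : ‖1 - ∑ s, p s * q s‖ ≤ 2 * δ := by rw [← e3, norm_sub_rev]; exact k2.le
  refine ⟨k, fun s => s.elim (1 - ∑ s, p s * q s) p, fun s => s.elim 1 q, by simp, ?_,
    fun β hβ G M M0 g1 g2 g3 => ?_⟩
  · rw [Fintype.sum_option]
    have : δ ≤ 1 := min_le_left _ _
    exact add_le_add (mul_le_mul_of_nonneg_right (k4.trans (by linarith)) (norm_nonneg _)) e1
  obtain ⟨g, g4, g5⟩ := ML.toMulti (n := 2) (Φ := fun l => G (l.getD 0 0) (l.getD 1 0))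
    ⟨fun l _ => g1 (l.getD 0 0), fun u => ⟨fun l _ => g2 u, fun v => g3 u v⟩⟩ M0
  have e4 := lin_le g (L β x - L' β x)
  have e5 : ‖L β x - L' β x‖ < 2 * δ := Set.mem_iInter₂.1 k3 β hβ
  have e6 : lin g (L β x - L' β x) = ∑ s, G (β * p s) (q s) - ∑ s, G (p s) (q s * β) := by
    simp [e2, L, L', g5]
  have e7 := g3 (β * (1 - ∑ s, p s * q s)) 1
  have e8 := g3 (1 - ∑ s, p s * q s) (1 * β)
  have e9 : ‖β‖ ≤ ∑ β ∈ S, ‖β‖ := Finset.single_le_sum (f := fun β => ‖β‖) (fun _ _ => norm_nonneg _) hβ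
  simp only [Fintype.sum_option, Option.elim]
  rw [add_sub_add_comm, ← e6]
  grw [norm_add_le, norm_sub_le, e4, e5, e7, e8, one_mul, norm_mul_le, k4, g4, e9, ← δ1]
  exact le_of_eq (by ring)

/-- balanced at all links -/
def Bal (n : ℕ) (D : Set A) (Φ : List A → ℂ) : Prop :=
  ∀ β ∈ D, ∀ l₁ x y l₂, l₁.length + l₂.length = n →
    Φ (l₁ ++ x * β :: y :: l₂) = Φ (l₁ ++ x :: β * y :: l₂)

theorem Zl.bal [CompleteSpace B] (h : IsAmenable B) (ι : B →ₐ[ℂ] A) (hι : ∀ x, ‖ι x‖ ≤ ‖x‖)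
    {C : ℝ} {Φ : List A → ℂ} (hΦ : Zl (n + 1) C Φ) :
    ∃ C' Φ', Zl (n + 1) C' Φ' ∧ Bl n (Φ - Φ') ∧ Bal (n + 1) (Set.range ι) Φ' := by
  classical
  obtain ⟨K, h⟩ := h.diag
  choose k p q h1 h2 h3 using fun i : Finset B × ℕ => h i.1 _ (Nat.one_div_pos_of_nat (n := i.2))
  have hK : ∀ i, ∑ s, ‖ι (p i s)‖ * ‖ι (q i s)‖ ≤ K := fun i =>
    (Finset.sum_le_sum fun s _ => by gcongr <;> exact hι _).trans (h2 i)
  obtain ⟨Φ', k1, k2, k3⟩ := hΦ.lim (.of atTop) (p := fun i s => ι (p i s))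
    (q := fun i s => ι (q i s)) (fun i => by simp only [← map_mul, ← map_sum, h1, map_one]) hK
  refine ⟨_, Φ', k1, k2, ?_⟩
  rintro _ ⟨β, rfl⟩ l₁ x y l₂ hl
  refine sub_eq_zero.1 (tendsto_nhds_unique ((k3 _ (by simp; omega)).sub (k3 _ (by simp; omega)))
    (Tendsto.mono_left ?_ (Ultrafilter.of_le atTop)))
  refine squeeze_zero_norm' (a := fun i => 1 / ((i.2 : ℝ) + 1) *
    (C * K ^ (l₁.length + l₂.length) * (np l₁ * ‖x‖) * ‖y‖ * np l₂)) ?_ (by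
    simpa using ((tendsto_one_div_add_atTop_nhds_zero_nat (𝕜 := ℝ)).comp
      ((prod_atTop_atTop_eq (α := Finset B) (β := ℕ)) ▸ tendsto_snd)).mul_const
        (C * K ^ (l₁.length + l₂.length) * (np l₁ * ‖x‖) * ‖y‖ * np l₂))
  filter_upwards [eventually_ge_atTop ({β}, 0)] with i hi
  refine TL_bal Nat.one_div_pos_of_nat.le (hK i) (fun G M M0 g1 g2 g3 => ?_) y l₂ _ l₁ rfl x hΦ.c0
    (hl ▸ hΦ.ml)
  simpa only [map_mul] using h3 i β (hi.1 (Finset.mem_singleton_self β)) (fun u v => G (ι u) (ι v))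
    M M0 (fun v => ⟨by simp [(g1 _).1], by simp [(g1 _).2]⟩)
    (fun v => ⟨by simp [(g2 _).1], by simp [(g2 _).2]⟩) fun u v => (g3 _ _).trans (by
      gcongr <;> exact hι _)

end Pool.Agent.Lib.MP_08bba9_an
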