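import Mathlib

/-! Groups with commuting cyclic conjugates. -/

namespace Pool.Agent.Lib.MP_08bba9_an

/-- A group has commuting cyclic conjugates if for every finitely generated subgroup `H` there are
`t` and `2 ≤ n ≤ ∞` with `[H, t^p H t^(-p)] = 1` for `1 ≤ p < n` and, if `n` is finite,
`[H, t^n] = 1`. -/
def CommutingCyclicConjugates (Γ : Type*) [Group Γ] : Prop :=
  ∀ H : Subgroup Γ, H.FG → ∃ (t : Γ) (n : ℕ∞), 2 ≤ n ∧
    (∀ p : ℕ, 1 ≤ p → (p : ℕ∞) < n → ∀ x ∈ H, ∀ y ∈ H, Commute x (t ^ p * y * (t ^ p)⁻¹)) ∧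
    ∀ m : ℕ, (m : ℕ∞) = n → ∀ x ∈ H, Commute x (t ^ m)

end Pool.Agent.Lib.MP_08bba9_an
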