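import Pool.Agent.Lib.MP_08bba9_an.Face
import Pool.Agent.Lib.MP_08bba9_an.Lst

/-! From functions on lists to bounded multilinear forms. -/

noncomputable section

namespace Pool.Agent.Lib.MP_08bba9_an

open Fin

variable {A : Type*} [NormedRing A] [NormedAlgebra ℂ A] {n : ℕ}

omit [NormedAlgebra ℂ A] in
theorem dL_ofFn (Φ : List A → ℂ) (a : Fin (n + 2) → A) : dL Φ (List.ofFn a) =
    ∑ i : Fin (n + 1), (-1 : ℂ) ^ (i : ℕ) • Φ (List.ofFn (contractNth i.castSucc (· * ·) a)) := by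
  induction n generalizing Φ with
  | zero =>
    rw [← cons_self_tail a, sum_univ_one, castSucc_zero, contract_zero]
    simp [dL, unc, dl]
  | succ n ih =>
    have := ih (cs (a 0) Φ) (tail a)
    rw [← cons_self_tail a, sum_univ_succ, castSucc_zero, contract_zero]
    simp only [← succ_castSucc, contract_succ, List.ofFn_cons, val_succ, pow_succ, mul_neg_one,
      neg_smul, Finset.sum_neg_distrib, val_zero, pow_zero, one_smul]
    rw [List.ofFn_succ] at this ⊢
    exact (congrArg (_ - ·) this).trans (sub_eq_add_neg _ _)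

omit [NormedAlgebra ℂ A] in
theorem face_comm (i : Fin (n + 2)) (a : Fin (n + 3) → A) :
    face (last _) (contractNth i.castSucc (· * ·) a) = face i (face (last _) a) := by
  refine Fin.lastCases ?_ (fun j => ?_) i
  · rw [face_last, face_last, face_last, contractNth_apply_of_eq _ _ _ _ (by simp),
      contractNth_apply_of_lt _ _ _ _ (by simp)]
    congr 1
    · exact mul_assoc _ _ _
    · funext k
      rw [contractNth_apply_of_lt _ _ _ _ (by simp), ← succ_castSucc, cons_succ]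
  · rw [face_castSucc, face_last, face_last,
      contractNth_apply_of_gt _ _ _ _ (by simpa using j.is_le)]
    refine Fin.cases ?_ (fun j => ?_) j
    · rw [castSucc_zero, castSucc_zero, contract_zero, contractNth_apply_of_eq _ _ _ _ rfl]
      congr 1
      exact (mul_assoc _ _ _).symm
    · rw [contractNth_apply_of_lt _ _ _ _ (by simp), ← succ_castSucc, contract_succ]
      congr 1
      funext k
      simp only [contractNth, val_succ, val_castSucc, Nat.add_lt_add_iff_right,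
        Nat.add_right_cancel_iff]
      rfl

omit [NormedAlgebra ℂ A] in
theorem face_last_snoc (x y : A) (m : Fin n → A) :
    face (last _) (cons x (snoc m y : Fin (n + 1) → A)) = cons (y * x) m := by
  rw [face_last]
  congr 1
  · simp [← succ_last]
  · funext k
    rw [← succ_castSucc, cons_succ, snoc_castSucc]

omit [NormedAlgebra ℂ A] in
theorem ofFn_snoc (x y : A) (m : Fin n → A) :
    List.ofFn (cons x (snoc m y : Fin (n + 1) → A) : Fin (n + 2) → A) = x :: (List.ofFn m ++ [y]) := by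
  rw [List.ofFn_cons, List.ofFn_succ']
  simp

/-- the function on lists attached to a cochain -/
def Rp (φ : Multi A ℂ n) (Φ : List A → ℂ) : Prop := ∀ a, Φ (List.ofFn a) = φ (face (last _) a)

theorem Rp.dL {φ : Multi A ℂ n} {Φ : List A → ℂ} (h : Rp φ Φ) : Rp (cob φ) (dL Φ) := fun a => by
  simp only [dL_ofFn, h _, cob_apply, face_comm]

theorem Rp.ob {φ : Multi A ℂ n} {Φ : List A → ℂ} (h : Rp φ Φ) : OB n Φ := fun c a y m hm => by
  subst hm
  rw [← List.ofFn_get m, ← ofFn_snoc, ← ofFn_snoc, h, h, face_last_snoc, face_last_snoc, mul_assoc]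

theorem Rp.eq {φ ψ : Multi A ℂ n} {Φ Ψ : List A → ℂ} (h : Rp φ Φ) (h' : Rp ψ Ψ)
    (e : ∀ l, l.length = n + 2 → Φ l = Ψ l) : φ = ψ := by
  ext a
  have := (h _).symm.trans ((e _ (by simp)).trans (h' (cons (a 0) (snoc (tail a) 1))))
  rwa [face_last_snoc, one_mul, cons_self_tail] at this

theorem ex_rp (φ : Multi A ℂ n) : ∃ Φ C, 0 ≤ C ∧ ML (n + 2) C Φ ∧ Rp φ Φ := by
  obtain ⟨Φ, h1, h2⟩ := ML.ofMulti (faceMap (last _) φ)
  exact ⟨Φ, _, norm_nonneg _, h1, h2⟩

theorem ex_multi {Φ : List A → ℂ} {C : ℝ} (hC : 0 ≤ C) (h : ML (n + 2) C Φ) (h' : OB n Φ) :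
    ∃ φ : Multi A ℂ n, Rp φ Φ := by
  obtain ⟨φ, -, h2⟩ := (h.last 1).toMulti (by positivity)
  refine ⟨φ, fun a => ?_⟩
  rw [← cons_self_tail a, ← snoc_init_self (tail a), face_last_snoc, h2, ofFn_snoc, List.ofFn_cons,
    List.cons_append, h' _ _ _ _ (by simp), one_mul]

theorem cob_cob (φ : Multi A ℂ n) : cob (cob φ) = 0 := by
  obtain ⟨Φ, C, -, -, h⟩ := ex_rp φ
  refine h.dL.dL.eq (Ψ := 0) (fun _ => rfl) fun l hl => ?_
  obtain ⟨a, l, rfl⟩ := List.exists_cons_of_length_eq_add_one hl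
  exact dl_dL a l Φ

theorem hh_of_list (H : ∀ C (Φ : List A → ℂ), Zl (n + 1) C Φ → Bl n Φ) (φ : Multi A ℂ (n + 1))
    (hφ : cob φ = 0) : ∃ χ : Multi A ℂ n, cob χ = φ := by
  obtain ⟨Φ, C, h0, h1, h2⟩ := ex_rp φ
  obtain ⟨C', Ψ, k0, k1, k2, k3⟩ := H C Φ ⟨h0, h1, h2.ob, fun l hl => by
    rw [← List.ofFn_get l]
    have := h2.dL
    rw [hφ] at this
    generalize l.get = a
    revert a
    rw [hl]
    exact this⟩
  obtain ⟨χ, hχ⟩ := ex_multi k0 k1 k2
  exact ⟨χ, hχ.dL.eq h2 fun l hl => (k3 l hl).symm⟩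

end Pool.Agent.Lib.MP_08bba9_an
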