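import Pool.Agent.Lib.MP_08bba9_an.CycA

/-! The trace description follows from the vanishing of the Hochschild groups. -/

noncomputable section

namespace Pool.Agent.Lib.MP_08bba9_an

namespace CY

open Fin Finset

theorem mem_closure_dual {E : Type*} [SeminormedAddCommGroup E] [NormedSpace ℂ E]
    (R : Submodule ℂ E) {z : E} (h : ∀ g : E →L[ℂ] ℂ, (∀ x ∈ R, g x = 0) → g z = 0) :
    z ∈ R.topologicalClosure := by
  have : IsClosed (R.topologicalClosure : Set E) := R.isClosed_topologicalClosure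
  rw [← Submodule.Quotient.mk_eq_zero]
  exact SeparatingDual.eq_zero_of_forall_dual_eq_zero (R := ℂ) fun g =>
    h (g ∘L R.topologicalClosure.mkQL) fun x hx => by
      change g (Submodule.Quotient.mk x) = 0
      rw [(Submodule.Quotient.mk_eq_zero _).2 (R.le_topologicalClosure hx), map_zero]

theorem closure_ker {E : Type*} [SeminormedAddCommGroup E] [NormedSpace ℂ E] {R : Submodule ℂ E}
    (g : E →L[ℂ] ℂ) (h : ∀ x ∈ R, g x = 0) {z : E} (hz : z ∈ R.topologicalClosure) : g z = 0 :=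
  R.topologicalClosure_minimal (t := g.ker) h g.isClosed_ker hz

variable {A : Type*} [NormedRing A] [NormedAlgebra ℂ A] {n : ℕ}

theorem cob_one {F : Type*} [NormedAddCommGroup F] [NormedSpace ℂ F] (f : Multi A F n) :
    cob f 1 = ev (n + 1) • f 1 := by
  simp only [cob_apply, face_one, ← sum_smul, sum_ev]

theorem cyc_one {F : Type*} [NormedAddCommGroup F] [NormedSpace ℂ F] (f : Multi A F n) :
    cyc f 1 = (2 * ev n - 1) • f 1 := by
  rw [cyc_apply, ev_sign]
  rfl

theorem cobd_one (hn : Even n) {φ : Multi A ℂ n} (h : φ ∈ coboundaries A n) : φ 1 = 0 := by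
  cases n with
  | zero => rw [(Submodule.mem_bot ℂ).1 h]; rfl
  | succ n =>
    obtain ⟨χ, h1, rfl⟩ := h
    have h2 := cyc_one χ
    have h3 := ev_succ n
    rw [mem_cyc.1 h1, smul_eq_mul] at h2
    rw [ev, if_pos hn] at h3
    rw [cob_one, show χ 1 = 0 by linear_combination (1 / 2) * h2 + χ 1 * h3, smul_zero]

theorem lin_cob (χ : Multi A ℂ n) : lin (cob χ) = lin χ ∘L bd A n :=
  chain_ext fun a => by simp [bd, cob_apply]

theorem lin_cyc {χ : Multi A ℂ n} (h : cyc χ = χ) {x : Chain A n} (hx : x ∈ cycRange A n) :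
    lin χ x = 0 := by
  obtain ⟨y, rfl⟩ := hx
  refine DFunLike.congr_fun (chain_ext (L := lin χ ∘L (1 - lin (cyc (tens A n)))) (L' := 0)
    fun a => ?_) y
  have := DFunLike.congr_fun h a
  rw [cyc_apply] at this
  simp [cyc_apply, ← this]

theorem lin_cobd {ρ : Multi A ℂ n} (h : ρ ∈ coboundaries A n) {x : Chain A n}
    (hx : Submodule.Quotient.mk x ∈ cycles A n) : lin ρ x = 0 := by
  cases n with
  | zero =>
    rw [(Submodule.mem_bot ℂ).1 h, chain_ext (L := lin 0) (L' := 0) fun a => by simp]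
    rfl
  | succ n =>
    obtain ⟨χ, h1, rfl⟩ := h
    rw [lin_cob]
    exact lin_cyc (mem_cyc.1 h1) ((Submodule.Quotient.mk_eq_zero _).1 hx)

theorem one_cycle (hn : Even n) : Submodule.Quotient.mk (tens A n 1) ∈ cycles A n := by
  cases n with
  | zero => trivial
  | succ n =>
    have h3 := ev_succ n
    rw [ev, if_pos hn] at h3
    refine (Submodule.Quotient.mk_eq_zero _).2 ⟨(1 / 2 : ℂ) • tens A n 1, ?_⟩
    change (1 - lin (cyc (tens A n))) _ = bd A n _
    rw [map_smul, bd, lin_tens, cob_one, sub_apply, lin_tens, cyc_one, ev_succ,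
      show ev n = 0 by linear_combination h3, one_apply_eq_self]
    module

section
variable {τ : A →L[ℂ] ℂ} (hτ : τ ∈ Traces A) (h1 : τ 1 = 1 ∨ τ = 0)
  (hu : ∀ f ∈ Traces A, f = f 1 • τ)
  (K : ∀ φ ∈ cocycles A n, ∃ c : ℂ, φ - c • ev n • tr τ n ∈ coboundaries A n)

include h1 in
theorem tr_smul : τ 1 • tr τ n = tr τ n := by
  rcases h1 with h | rfl
  · rw [h, one_smul]
  · ext a; simp [tr_apply]

include hτ h1 hu K in
theorem coh_even (hn : Even n) : Nonempty (CyclicCohomology A n ≃L[ℂ] Traces A) := by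
  have e1 : ev n = 1 := if_pos hn
  have t : tr τ n ∈ cocycles A n :=
    ⟨mem_cyc.2 (by simpa [e1] using cyc_ev (n := n) hτ), by simpa [e1] using cob_ev (n := n) hτ⟩
  let u : CyclicCohomology A n := Submodule.Quotient.mk ⟨_, t⟩
  let F : cocycles A n →L[ℂ] Traces A := (ContinuousMultilinearMap.apply ℂ _ ℂ 1 ∘L
    (cocycles A n).subtypeL).smulRight ⟨τ, hτ⟩
  have hF : ∀ φ, F φ = φ.1 1 • (⟨τ, hτ⟩ : Traces A) := fun _ => rfl
  let G := ((coboundaries A n).submoduleOf (cocycles A n)).liftQL (M₂ := Traces A)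
    (σ := RingHom.id ℂ) F fun φ h => by
      change F φ = 0
      rw [hF, cobd_one (φ := φ.1) hn h, zero_smul]
  refine ⟨.equivOfInverse G
    ((ContinuousLinearMap.apply ℂ ℂ 1 ∘L (Traces A).subtypeL).smulRight u) (fun x => ?_) fun f => ?_⟩
  · obtain ⟨φ, rfl⟩ := Submodule.Quotient.mk_surjective _ x
    obtain ⟨c, hc⟩ := K φ φ.2
    have := cobd_one hn hc
    rw [e1, one_smul] at hc this
    change (φ.1 1 * τ 1) • u = _
    refine ((Submodule.Quotient.eq _).2 ?_).symm
    change φ.1 - (φ.1 1 * τ 1) • tr τ n ∈ coboundaries A n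
    rwa [mul_smul, tr_smul h1, show φ.1 1 = c * τ 1 by simpa [tr_one, sub_eq_zero] using this,
      mul_smul, tr_smul h1]
  · change G (f.1 1 • u) = f
    rw [map_smul]
    refine Subtype.ext (Eq.trans ?_ (hu f f.2).symm)
    change f.1 1 • tr τ n 1 • τ = _
    rw [tr_one, ← hu τ hτ]

include K in
theorem coh_odd (hn : Odd n) : Subsingleton (CyclicCohomology A n) :=
  Submodule.Quotient.subsingleton_iff.2 (eq_top_iff.2 fun φ _ => by
    obtain ⟨c, hc⟩ := K φ φ.2
    rwa [ev, if_neg (Nat.not_even_iff_odd.2 hn), zero_smul, smul_zero, sub_zero] at hc)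

include K in
theorem hom_mem {x : Chain A n} (hx : Submodule.Quotient.mk x ∈ cycles A n)
    (h0 : lin (ev n • tr τ n) x = 0) :
    Submodule.Quotient.mk x ∈ (LinearMap.range (cycBd A n)).topologicalClosure := by
  refine mem_closure_dual _ fun g hg => ?_
  let φ := (g ∘L (cycRange A n).mkQL).compContinuousMultilinearMap (tens A n)
  have e : ∀ a, φ a = g (Submodule.Quotient.mk (tens A n a)) := fun _ => rfl
  obtain ⟨c, hc⟩ := K φ ⟨mem_cyc.2 (ContinuousMultilinearMap.ext fun a => by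
      rw [e, (Submodule.Quotient.eq _).2 (show tens A n a - lin (cyc (tens A n)) (tens A n a) ∈
        cycRange A n from ⟨tens A n a, rfl⟩), lin_tens, cyc_apply, cyc_apply, Submodule.Quotient.mk_smul, map_smul, e]),
    ContinuousMultilinearMap.ext fun a => by
      have := hg _ ⟨Submodule.Quotient.mk (tens A (n + 1) a), rfl⟩
      change (g ∘L (cycRange A n).mkQL) (bd A n _) = 0 at this
      rw [bd, lin_tens, cob_apply, map_sum] at this
      simp only [map_smul] at this
      rw [cob_apply]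
      exact this⟩
  have h2 := lin_cobd hc hx
  rw [chain_ext (L := lin _) (L' := g ∘L (cycRange A n).mkQL - c • lin (ev n • tr τ n))
    fun a => by rw [lin_tens]; simp [e]] at h2
  simpa [h0] using h2

include K in
theorem hom_odd (hn : Odd n) : Subsingleton (CyclicHomology A n) :=
  Submodule.Quotient.subsingleton_iff.2 (eq_top_iff.2 fun ⟨z, hz⟩ _ => by
    obtain ⟨x, rfl⟩ := Submodule.Quotient.mk_surjective _ z
    refine hom_mem K hz ?_
    rw [ev, if_neg (Nat.not_even_iff_odd.2 hn), zero_smul,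
      chain_ext (L := lin 0) (L' := 0) fun a => by simp]
    rfl)

include hτ h1 hu K in
theorem hom_even (hn : Even n) : Nonempty (CyclicHomology A n ≃L[ℂ] A ⧸ commClosure A) := by
  have e1 : ev n = 1 := if_pos hn
  have t1 : cyc (tr τ n) = tr τ n := by simpa [e1] using cyc_ev (n := n) hτ
  have t2 : cob (tr τ n) = 0 := by simpa [e1] using cob_ev (n := n) hτ
  let T : CycChain A n →L[ℂ] ℂ := Submodule.liftQL _ (lin (tr τ n)) fun x hx => lin_cyc t1 hx
  have hT : ∀ x, T (Submodule.Quotient.mk x) = lin (tr τ n) x := fun _ => rfl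
  have T1 : ∀ x, lin (tr τ n) x * τ 1 = lin (tr τ n) x := fun x => by
    have := DFunLike.congr_fun (chain_ext (L := τ 1 • lin (tr τ n)) (L' := lin (tr τ n)) fun a => by
      simpa using DFunLike.congr_fun (tr_smul h1 (n := n)) a) x
    rwa [mul_comm]
  let u : CyclicHomology A n := Submodule.Quotient.mk ⟨_, one_cycle hn⟩
  let F : cycles A n →L[ℂ] A ⧸ commClosure A :=
    (T ∘L (cycles A n).subtypeL).smulRight (Submodule.Quotient.mk 1)
  have hF : ∀ z, F z = T z.1 • Submodule.Quotient.mk 1 := fun _ => rfl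
  have sp : ∀ g : A →L[ℂ] ℂ, (∀ x ∈ Submodule.span ℂ {x | ∃ a b : A, x = a * b - b * a}, g x = 0) ↔
      g ∈ Traces A := fun g =>
    ⟨fun h a b => sub_eq_zero.1 (map_sub g _ _ ▸ h _ (Submodule.subset_span ⟨a, b, rfl⟩)),
      fun h => Submodule.span_le (p := g.ker).2 (by
        rintro _ ⟨a, b, rfl⟩
        exact (map_sub g _ _).trans (sub_eq_zero.2 (h a b)))⟩
  refine ⟨.equivOfInverse (Submodule.liftQL _ F fun z h => ?_)
    (Submodule.liftQL _ (τ.smulRight u) fun a h => ?_) (fun x => ?_) fun y => ?_⟩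
  · change F z = 0
    rw [hF, closure_ker T (z := z.1) ?_ h, zero_smul]
    rintro _ ⟨y, rfl⟩
    obtain ⟨x, rfl⟩ := Submodule.Quotient.mk_surjective _ y
    change (lin (tr τ n) ∘L bd A n) x = 0
    rw [← lin_cob, t2, chain_ext (L := lin 0) (L' := 0) fun a => by simp]
    rfl
  · change τ a • u = 0
    rw [closure_ker τ ((sp τ).2 hτ) h, zero_smul]
  · obtain ⟨⟨z, hz⟩, rfl⟩ := Submodule.Quotient.mk_surjective _ x
    obtain ⟨x, rfl⟩ := Submodule.Quotient.mk_surjective _ z
    change τ (lin (tr τ n) x • 1) • u = _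
    rw [map_smul, smul_eq_mul, T1]
    refine ((Submodule.Quotient.eq _).2 ?_).symm
    refine hom_mem K (x := x - lin (tr τ n) x • tens A n 1)
      (sub_mem hz (Submodule.smul_mem _ _ (one_cycle hn))) ?_
    rw [e1, one_smul, map_sub, map_smul, lin_tens, tr_one, smul_eq_mul, T1, sub_self]
  · obtain ⟨a, rfl⟩ := Submodule.Quotient.mk_surjective _ y
    change Submodule.liftQL _ F _ (τ a • u) = _
    rw [map_smul]
    change τ a • lin (tr τ n) (tens A n 1) • Submodule.Quotient.mk (1 : A) = _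
    have e2 : τ a * τ 1 = τ a := by
      rcases h1 with h | h
      · rw [h, mul_one]
      · simp [h]
    rw [lin_tens, tr_one, smul_smul, e2, ← Submodule.Quotient.mk_smul]
    refine ((Submodule.Quotient.eq _).2 (mem_closure_dual _ fun g hg => ?_)).symm
    have := DFunLike.congr_fun (hu g ((sp g).1 hg)) a
    rw [map_sub, map_smul, this]
    simp [mul_comm]

end

end CY

open CY in
theorem trace_desc {A : Type*} [NormedRing A] [NormedAlgebra ℂ A] (τ : A →L[ℂ] ℂ)
    (hτ : τ ∈ Traces A) (h1 : τ 1 = 1 ∨ τ = 0) (hu : ∀ f ∈ Traces A, f = f 1 • τ)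
    (bb : ∀ n (φ : Multi A ℂ n), cob (cob φ) = 0)
    (HH : ∀ n (φ : Multi A ℂ (n + 1)), cob φ = 0 → ∃ χ : Multi A ℂ n, cob χ = φ) :
    TraceDescription A := fun n =>
  have K := key hτ hu bb HH n
  ⟨fun hn => ⟨coh_even hτ h1 hu K hn, hom_even hτ h1 hu K hn⟩, fun hn => ⟨coh_odd K hn, hom_odd K hn⟩⟩

end Pool.Agent.Lib.MP_08bba9_an
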