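import Pool.Agent.Lib.MP_08bba9_an.Defs

/-! The operators of the cyclic bicomplex on bounded cochains, and the chase that computes the
cyclic cocycles from the vanishing of the Hochschild groups. -/

noncomputable section

namespace Pool.Agent.Lib.MP_08bba9_an.CY

open Fin Finset

section tuples

variable {A : Type*} [Monoid A] {n : ℕ}

/-- the bar coboundary of a plain function -/
def dp (f : (Fin (n + 1) → A) → ℂ) (a : Fin (n + 2) → A) : ℂ :=
  ∑ i : Fin (n + 1), (-1 : ℂ) ^ (i : ℕ) • f (contractNth i.castSucc (· * ·) a)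

theorem dp_zero (f : (Fin 1 → A) → ℂ) (x : A) (a : Fin 1 → A) :
    dp f (cons x a) = f (cons (x * a 0) (tail a)) := by
  rw [dp, Fin.sum_univ_one, castSucc_zero, contract_zero]
  simp

theorem dp_cons (f : (Fin (n + 2) → A) → ℂ) (x : A) (a : Fin (n + 2) → A) :
    dp f (cons x a) = f (cons (x * a 0) (tail a)) - dp (fun l => f (cons x l)) a := by
  rw [dp, dp, Fin.sum_univ_succ, castSucc_zero, contract_zero, sub_eq_add_neg, ← sum_neg_distrib]
  simp only [← succ_castSucc, contract_succ, val_succ, pow_succ, val_zero, pow_zero, one_smul,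
    mul_neg_one, neg_smul]

theorem dp_left (f : (Fin (n + 1) → A) → ℂ) (x : A) (a : Fin (n + 2) → A) :
    dp (fun l => f (cons (x * l 0) (tail l))) a = dp f (cons (x * a 0) (tail a)) := by
  refine sum_congr rfl fun i _ => ?_
  rw [← cons_self_tail a]
  refine Fin.cases ?_ (fun i => ?_) i
  · simp only [castSucc_zero, contract_zero, cons_zero, tail_cons, mul_assoc]
  · simp only [← succ_castSucc, contract_succ, cons_zero, tail_cons]

theorem dp_dp (f : (Fin (n + 1) → A) → ℂ) (a : Fin (n + 3) → A) : dp (dp f) a = 0 := by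
  induction n with
  | zero =>
    rw [← cons_self_tail a, dp_cons, ← dp_left]
    simp only [dp_zero, sub_self]
  | succ n ih =>
    have := ih (fun l => f (cons (a 0) l)) (tail a)
    rw [← cons_self_tail a, dp_cons, ← dp_left]
    simp only [dp_cons]
    rw [dp] at this
    rw [dp, dp]
    simp only [smul_sub, sum_sub_distrib, this, sub_zero, sub_self]

theorem prod_contract (i : Fin (n + 1)) (a : Fin (n + 2) → A) :
    (List.ofFn (contractNth i.castSucc (· * ·) a)).prod = (List.ofFn a).prod := by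
  induction n with
  | zero =>
    rw [← cons_self_tail a, Subsingleton.elim (α := Fin 1) i 0, castSucc_zero, contract_zero]
    simp [tail]
  | succ n ih =>
    rw [← cons_self_tail a]
    refine Fin.cases ?_ (fun i => ?_) i
    · rw [castSucc_zero, contract_zero]
      simp [List.ofFn_succ, tail, mul_assoc]
    · rw [← succ_castSucc, contract_succ, List.ofFn_succ, List.ofFn_succ (f := cons _ _)]
      simp only [cons_zero, cons_succ, List.prod_cons]
      exact congrArg _ (ih i _)

theorem face_one (i : Fin (n + 2)) : face i (1 : Fin (n + 2) → A) = 1 := by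
  funext k
  unfold face
  split_ifs
  · refine Fin.cases ?_ (fun k => ?_) k <;> simp
  · simp [contractNth]

end tuples

variable {A : Type*} [NormedRing A] [NormedAlgebra ℂ A] {n : ℕ}

/-- the signed faces -/
def fa (i : Fin (n + 2)) : Multi A ℂ n →ₗ[ℂ] Multi A ℂ (n + 1) where
  toFun f := (-1 : ℂ) ^ (i : ℕ) • faceMap i f
  map_add' f g := by ext a; simp [mul_add]
  map_smul' c f := by ext a; simp [mul_left_comm c]

/-- the bar coboundary -/
def bp : Multi A ℂ n →ₗ[ℂ] Multi A ℂ (n + 1) := ∑ i : Fin (n + 1), fa i.castSucc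

/-- the norm operator -/
def nm : Module.End ℂ (Multi A ℂ n) := ∑ j ∈ range (n + 1), cyc ^ j

theorem bp_apply (f : Multi A ℂ n) (a) : bp f a = dp f a := by
  simp [bp, fa, dp, face_castSucc]

theorem bp_bp (f : Multi A ℂ n) : bp (bp f) = 0 := by
  ext a
  rw [bp_apply, show (bp f : _ → ℂ) = dp f from funext (bp_apply f), dp_dp]
  rfl

theorem bp_exact {ω : Multi A ℂ (n + 1)} (h : bp ω = 0) : ∃ ψ, bp ψ = ω := by
  refine ⟨ω.curryLeft 1, ?_⟩
  ext a
  have := bp_apply ω (cons 1 a)
  rw [h, dp_cons, one_mul, cons_self_tail] at this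
  rw [bp_apply]
  exact (sub_eq_zero.1 this.symm).symm

theorem cob_eq (f : Multi A ℂ n) : cob f = ∑ i : Fin (n + 2), fa i f := rfl

theorem cob_cyc (f : Multi A ℂ n) : cob f - cyc (cob f) = bp (f - cyc f) := by
  rw [cob_sub_cyc, bp, LinearMap.sum_apply]
  rfl

theorem cyc_pow (k : ℕ) (f : Multi A ℂ n) (a) :
    (cyc ^ k) f a = (-1 : ℂ) ^ (n * k) • f fun i => a (i - k • 1) := by
  induction k generalizing a with
  | zero => simp
  | succ k ih =>
    rw [pow_succ', Module.End.mul_apply, cyc_apply, ih, smul_smul, ← pow_add, succ_nsmul]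
    simp only [sub_sub, mul_add, mul_one, add_comm]

theorem cyc_per : (cyc : Module.End ℂ (Multi A ℂ n)) ^ (n + 1) = 1 := by
  ext f a
  have : (n + 1) • (1 : Fin (n + 1)) = 0 := by simpa using card_nsmul_eq_zero (x := (1 : Fin (n + 1)))
  rw [cyc_pow, this, (Nat.even_mul_succ_self n).neg_one_pow, one_smul]
  exact congrArg f (funext fun i => congrArg a (sub_zero i))

theorem cyc_nm (f : Multi A ℂ n) : cyc (nm f) = nm f := by
  have := mul_neg_geom_sum (cyc : Module.End ℂ (Multi A ℂ n)) (n + 1)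
  rw [cyc_per, sub_self] at this
  exact (sub_eq_zero.1 (LinearMap.congr_fun this f)).symm

theorem nm_cyc (f : Multi A ℂ n) : nm (cyc f) = nm f := by
  have := geom_sum_mul_neg (cyc : Module.End ℂ (Multi A ℂ n)) (n + 1)
  rw [cyc_per, sub_self, mul_sub, mul_one] at this
  exact (sub_eq_zero.1 (LinearMap.congr_fun this f)).symm

theorem nm_pow (k : ℕ) (f : Multi A ℂ n) : nm ((cyc ^ k) f) = nm f := by
  induction k with
  | zero => rfl
  | succ k ih => rw [pow_succ', Module.End.mul_apply, nm_cyc, ih]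

theorem pow_fix {f : Multi A ℂ n} (h : cyc f = f) (k : ℕ) : (cyc ^ k) f = f := by
  induction k with
  | zero => rfl
  | succ k ih => rw [pow_succ', Module.End.mul_apply, ih, h]

theorem nm_fix {f : Multi A ℂ n} (h : cyc f = f) : nm f = (n + 1 : ℂ) • f := by
  rw [nm, LinearMap.sum_apply, sum_congr rfl fun k _ => pow_fix h k, Finset.sum_const, card_range,
    ← Nat.cast_smul_eq_nsmul ℂ, Nat.cast_succ]

theorem pow_fa (i : Fin (n + 2)) (f : Multi A ℂ n) :
    (cyc ^ (i : ℕ)) (fa i f) = fa 0 ((cyc ^ (i : ℕ)) f) := by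
  induction i using Fin.induction generalizing f with
  | zero => rfl
  | succ i ih =>
    rw [val_succ, pow_succ, pow_succ, Module.End.mul_apply, Module.End.mul_apply, ← val_castSucc,
      ← ih]
    congr 1
    ext a
    simp only [cyc_apply, fa, LinearMap.coe_mk, AddHom.coe_mk, smul_apply,
      faceMap_apply, face_succ_rot, smul_smul, val_succ, val_castSucc]
    congr 1
    ring

theorem nm_fa (i : Fin (n + 2)) (f : Multi A ℂ n) : nm (fa i f) = nm (fa 0 ((cyc ^ (i : ℕ)) f)) := by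
  rw [← pow_fa, nm_pow]

theorem nm_bp (f : Multi A ℂ n) : nm (bp f) = cob (nm f) := by
  have h1 : nm (bp f) = nm (fa 0 (nm f)) := by
    rw [bp, LinearMap.sum_apply, map_sum]
    conv_rhs => rw [nm.eq_def (n := n), LinearMap.sum_apply, map_sum, map_sum, sum_range]
    exact sum_congr rfl fun i _ => nm_fa _ _
  have h2 : cyc (cob (nm f)) = cob (nm f) := by
    have := cob_cyc (nm f)
    rw [cyc_nm, sub_self, map_zero] at this
    exact (sub_eq_zero.1 this).symm
  have h3 := nm_fix h2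
  rw [cob_eq, map_sum, sum_congr rfl fun i _ => nm_fa i _] at h3
  simp only [pow_fix (cyc_nm f), Finset.sum_const, card_univ, Fintype.card_fin] at h3
  rw [← Nat.cast_smul_eq_nsmul ℂ, ← Nat.cast_succ] at h3
  exact h1.trans (smul_right_injective _ (Nat.cast_ne_zero.2 (Nat.succ_ne_zero _)) h3)

theorem ker_nm {f : Multi A ℂ n} (h : nm f = 0) : ∃ κ, κ - cyc κ = f := by
  refine ⟨(n + 1 : ℂ)⁻¹ • ∑ j ∈ range (n + 1), (∑ i ∈ range j, cyc ^ i) f, ?_⟩
  have e : ∀ j, (∑ i ∈ range j, cyc ^ i) f - cyc ((∑ i ∈ range j, cyc ^ i) f) = f - (cyc ^ j) f :=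
    fun j => LinearMap.congr_fun (mul_neg_geom_sum (cyc : Module.End ℂ (Multi A ℂ n)) j) f
  rw [nm, LinearMap.sum_apply] at h
  rw [map_smul, ← smul_sub, map_sum, ← sum_sub_distrib, sum_congr rfl fun j _ => e j,
    sum_sub_distrib, h, sub_zero, Finset.sum_const, card_range, ← Nat.cast_smul_eq_nsmul ℂ, smul_smul,
    Nat.cast_succ, inv_mul_cancel₀ (Nat.cast_add_one_ne_zero n), one_smul]

theorem mem_cyc {f : Multi A ℂ n} : f ∈ cyclicCochains A n ↔ cyc f = f := by
  constructor
  · intro h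
    ext a
    have := h fun i => a (i - 1)
    rw [cyc_apply, smul_eq_mul, ← this]
    exact congrArg f (funext fun i => congrArg a (add_sub_cancel_right i 1))
  · intro h a
    conv_lhs => rw [← h, cyc_apply]
    simp

/-- one in even degree, zero in odd degree -/
def ev (n : ℕ) : ℂ := if Even n then 1 else 0

theorem sum_ev (n : ℕ) : ∑ i : Fin (n + 1), (-1 : ℂ) ^ (i : ℕ) = ev n := by
  rw [Fin.sum_univ_eq_sum_range (fun i => (-1 : ℂ) ^ i), neg_one_geom_sum, ev]
  simp only [Nat.even_add_one, ite_not]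

theorem ev_two (n : ℕ) : ev (n + 2) = ev n := by simp [ev, Nat.even_add]

theorem ev_sign (n : ℕ) : (-1 : ℂ) ^ n = 2 * ev n - 1 := by
  unfold ev
  split_ifs with h
  · rw [h.neg_one_pow]; ring
  · rw [(Nat.not_even_iff_odd.1 h).neg_one_pow]; ring

theorem ev_sq (n : ℕ) : ev n * ev n = ev n := by unfold ev; split_ifs <;> simp

theorem ev_succ (n : ℕ) : ev (n + 1) = 1 - ev n := by
  have := ev_sign (n + 1)
  rw [pow_succ, ev_sign] at this
  linear_combination (-1 / 2) * this

/-- the cochain attached to a trace -/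
def tr (τ : A →L[ℂ] ℂ) (n : ℕ) : Multi A ℂ n :=
  τ.compContinuousMultilinearMap (ContinuousMultilinearMap.mkPiAlgebraFin ℂ (n + 1) A)

theorem tr_apply (τ : A →L[ℂ] ℂ) (a : Fin (n + 1) → A) : tr τ n a = τ (List.ofFn a).prod := rfl

theorem tr_one (τ : A →L[ℂ] ℂ) : tr τ n 1 = τ 1 := by
  rw [tr_apply, List.prod_eq_one (by simp)]

section
variable {τ : A →L[ℂ] ℂ} (hτ : τ ∈ Traces A)
include hτ

theorem tr_rot (a : Fin (n + 1) → A) : (tr τ n fun i => a (i - 1)) = tr τ n a := by
  rw [rot_eq, tr_apply, tr_apply, List.ofFn_succ, List.ofFn_succ' a, List.prod_cons, hτ,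
    List.prod_concat]
  rfl

theorem tr_face (i : Fin (n + 2)) (a : Fin (n + 2) → A) : tr τ n (face i a) = tr τ (n + 1) a := by
  refine Fin.lastCases ?_ (fun i => ?_) i
  · rw [← face_zero_rot, ← castSucc_zero, face_castSucc, tr_apply, prod_contract, ← tr_apply,
      tr_rot hτ]
  · rw [face_castSucc, tr_apply, prod_contract, tr_apply]

theorem cyc_tr : cyc (tr τ n) = (2 * ev n - 1) • tr τ n := by
  ext a
  rw [cyc_apply, tr_rot hτ, ev_sign]
  rfl

theorem cob_tr : cob (tr τ n) = ev (n + 1) • tr τ (n + 1) := by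
  ext a
  simp only [cob_apply, tr_face hτ, ← sum_smul, sum_ev]
  rfl

theorem bp_tr : bp (tr τ n) = ev n • tr τ (n + 1) := by
  ext a
  simp only [bp_apply, dp, ← face_castSucc, tr_face hτ, ← sum_smul, sum_ev]
  rfl

theorem cyc_ev : cyc (ev n • tr τ n) = ev n • tr τ n := by
  rw [map_smul, cyc_tr hτ, smul_smul]
  congr 1
  linear_combination 2 * ev_sq n

theorem cob_ev : cob (ev n • tr τ n) = 0 := by
  rw [map_smul, cob_tr hτ, smul_smul, ev_succ, mul_sub, ev_sq, mul_one, sub_self, zero_smul]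

theorem key (hu : ∀ f ∈ Traces A, f = f 1 • τ) (bb : ∀ n (φ : Multi A ℂ n), cob (cob φ) = 0)
    (HH : ∀ n (φ : Multi A ℂ (n + 1)), cob φ = 0 → ∃ χ : Multi A ℂ n, cob χ = φ) (n : ℕ) :
    ∀ φ ∈ cocycles A n, ∃ c : ℂ, φ - c • ev n • tr τ n ∈ coboundaries A n := by
  induction n using Nat.twoStepInduction with
  | zero =>
    intro φ h
    let f := (ContinuousMultilinearMap.ofSubsingleton ℂ A ℂ (0 : Fin 1)).symm φ
    have e : ∀ a : Fin 1 → A, φ a = f (a 0) := fun a =>
      congrArg φ (funext fun i => congrArg a (Subsingleton.elim _ _))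
    have t : f ∈ Traces A := fun a b => by
      have := DFunLike.congr_fun (show cob φ = 0 from h.2) ![a, b]
      rw [cob_apply, Fin.sum_univ_two, e, e] at this
      simpa [face, contractNth, ← sub_eq_add_neg, sub_eq_zero] using this
    refine ⟨f 1, (Submodule.mem_bot ℂ).2 (sub_eq_zero.2 ?_)⟩
    ext a
    simpa [e, ev, tr_apply] using DFunLike.congr_fun (hu f t) (a 0)
  | one =>
    intro φ h
    obtain ⟨χ, rfl⟩ := HH 0 φ h.2
    exact ⟨0, χ, mem_cyc.2 (by simpa using LinearMap.congr_fun (cyc_per (n := 0)) χ), by simp⟩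
  | more n ih _ =>
    intro φ h
    obtain ⟨χ, rfl⟩ := HH _ φ h.2
    obtain ⟨ψ, hψ⟩ := bp_exact (ω := χ - cyc χ) (by rw [← cob_cyc, mem_cyc.1 h.1, sub_self])
    obtain ⟨c, hc⟩ := ih (nm ψ) ⟨mem_cyc.2 (cyc_nm _), by
      rw [SetLike.mem_coe, LinearMap.mem_ker, ← nm_bp, hψ, map_sub, nm_cyc, sub_self]⟩
    obtain ⟨ψ', h1, h2⟩ : ∃ ψ', bp ψ' = 0 ∧ nm ψ' = nm ψ - c • ev n • tr τ n := by
      cases n with
      | zero => exact ⟨0, map_zero _, by rw [map_zero]; exact ((Submodule.mem_bot ℂ).1 hc).symm⟩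
      | succ n =>
        obtain ⟨η, h1, h2⟩ := hc
        refine ⟨bp ((n + 1 : ℂ)⁻¹ • η), bp_bp _, ?_⟩
        rw [nm_bp, map_smul, nm_fix (mem_cyc.1 h1), smul_smul,
          inv_mul_cancel₀ (Nat.cast_add_one_ne_zero n), one_smul, h2]
    obtain ⟨κ, hκ⟩ := ker_nm (f := ψ - ψ' - (c / (n + 1)) • ev n • tr τ n) (by
      rw [map_sub, map_sub, h2, map_smul, nm_fix (cyc_ev hτ), smul_smul (c / _),
        div_mul_cancel₀ _ (Nat.cast_add_one_ne_zero n)]
      abel)
    have h3 := cob_cyc κ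
    rw [hκ, map_sub, map_sub, hψ, h1, map_smul, map_smul, bp_tr hτ] at h3
    refine ⟨c / (n + 1) * ev n / 2, χ - (c / (n + 1) * ev n / 2) • tr τ (n + 1) - cob κ,
      mem_cyc.2 ?_, ?_⟩
    · rw [map_sub, map_sub, map_smul, cyc_tr hτ, ev_succ]
      linear_combination (norm := module) h3
    · rw [map_sub, map_sub, bb, map_smul, cob_tr hτ, sub_zero]

end

end Pool.Agent.Lib.MP_08bba9_an.CY
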