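import Pool.Agent.Lib.MP_08bba9_an.Ccc

/-! Finitary ergodicity for groups with commuting cyclic conjugates. -/

namespace Pool.Agent.Lib.MP_08bba9_an

open Finset Function
open scoped BigOperators

namespace Erg

section prob

variable {A Z M : Type*} [Fintype A] [Fintype Z] [AddCommMonoid M] [Module ℚ≥0 M]

/-- resampling of a coordinate -/
theorem resample [Nonempty Z] {get : A → Z} {set : A → Z → A} (h1 : ∀ a z, get (set a z) = z)
    (h2 : ∀ a z, set (set a z) (get a) = a) (G : A → M) :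
    𝔼 a, G a = 𝔼 a, 𝔼 z, G (set a z) := by
  have i : Involutive fun p : A × Z => (set p.1 p.2, get p.1) := fun p => by simp [h1, h2]
  rw [← expect_product', univ_product_univ,
    Fintype.expect_equiv i.toPerm (fun p => G (set p.1 p.2)) (fun p => G p.1) fun _ => rfl,
    ← univ_product_univ,
    expect_product]
  simp

theorem law [Nonempty A] [Nonempty Z] {get : A → Z} {set : A → Z → A}
    (h1 : ∀ a z, get (set a z) = z) (h2 : ∀ a z, set (set a z) (get a) = a) (f : Z → M) :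
    𝔼 a, f (get a) = 𝔼 z, f z := by
  rw [resample h1 h2]
  simp [h1]

theorem norm_le {f : A → ℂ} {g : A → ℝ} (h : ∀ a, ‖f a‖ ≤ g a) : ‖𝔼 a, f a‖ ≤ 𝔼 a, g a :=
  (RCLike.norm_expect_le (K := ℂ)).trans (expect_le_expect fun a _ => h a)

theorem bad [Nonempty A] {m R : ℕ} {f g : (Fin m → Fin (R + 1) × A) → ℂ} (hf : ∀ ω, ‖f ω‖ ≤ 1)
    (hg : ∀ ω, ‖g ω‖ ≤ 1) (h : ∀ ω, (∀ i, (ω i).1 ≠ Fin.last R) → f ω = g ω) :
    ‖(𝔼 ω, f ω) - 𝔼 ω, g ω‖ ≤ 2 * m / (R + 1) := by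
  rw [← expect_sub_distrib]
  refine (norm_le (g := fun ω => ∑ i, if Fin.last R = (ω i).1 then 2 else 0) fun ω => ?_).trans_eq ?_
  · by_cases e : ∀ i, (ω i).1 ≠ Fin.last R
    · rw [h ω e, sub_self, norm_zero]
      exact sum_nonneg fun _ _ => by positivity
    · push Not at e
      obtain ⟨i, e⟩ := e
      refine (norm_sub_le_of_le (hf ω) (hg ω)).trans (le_trans ?_
        (single_le_sum (fun _ _ => by positivity) (mem_univ i)))
      rw [if_pos e.symm]; norm_num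
  · rw [expect_sum_comm, sum_congr rfl fun i _ => law
      (get := fun ω : Fin m → Fin (R + 1) × A => (ω i).1)
      (set := fun ω z => update ω i (z, (ω i).2)) (by simp) (by simp)
      fun k => if Fin.last R = k then (2 : ℝ) else 0]
    simp only [Fintype.expect_eq_sum_div_card, sum_ite_eq, mem_univ, if_true, Fintype.card_fin,
      sum_const, card_univ, nsmul_eq_mul]
    push_cast
    ring

end prob

variable {Γ : Type*} [Group Γ]

theorem exists_prod {Ω : Type*} {N : ℕ} (A : Fin N → Ω → Γ)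
    (h : ∀ p q, p ≠ q → ∀ x y, Commute (A p x) (A q y)) :
    ∃ P : (Fin N → Ω) → Γ, ∀ k y, ∃ r, ∀ z, P (update y k z) = A k z * r := by
  refine ⟨fun y => univ.noncommProd (fun p => A p (y p)) fun p _ q _ e => h p q e _ _, fun k y =>
    ⟨(univ.erase k).noncommProd (fun p => A p (y p)) fun p _ q _ e => h p q e _ _, fun z => ?_⟩⟩
  refine (mul_noncommProd_erase _ (mem_univ k) _ _).symm.trans ?_
  rw [update_self]
  congr 1
  exact noncommProd_congr rfl (fun p hp => by rw [update_of_ne (ne_of_mem_erase hp)]) _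

/-- conjugation by a power -/
def cj (t : Γ) (p : ℕ) (x : Γ) : Γ := t ^ p * x * (t ^ p)⁻¹

theorem cj_mul (t : Γ) (p : ℕ) (x y : Γ) : cj t p (x * y) = cj t p x * cj t p y := by
  simp [cj, mul_assoc]

theorem cj_add (t : Γ) (p q : ℕ) (x : Γ) : cj t (p + q) x = cj t p (cj t q x) := by
  simp [cj, pow_add, mul_assoc]

theorem exists_N (h : CommutingCyclicConjugates Γ) {H : Subgroup Γ} (hH : H.FG) (R : ℕ) :
    ∃ (t : Γ) (N : ℕ), 2 ≤ N ∧ (∀ p q : Fin N, p ≠ q → ∀ x ∈ H, ∀ y ∈ H,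
      Commute (cj t p x) (cj t q y)) ∧ ∀ a ≤ R, ∀ x ∈ H, cj t (a % N) x = cj t a x := by
  obtain ⟨t, n, h2, h3, h4⟩ := h H hH
  have k : ∀ N : ℕ, (N : ℕ∞) ≤ n → ∀ p q : Fin N, p ≠ q → ∀ x ∈ H, ∀ y ∈ H,
      Commute (cj t p x) (cj t q y) := fun N hN p q e x hx y hy => by
    wlog l : p < q generalizing p q x y
    · exact (this q p e.symm y hy x hx (lt_of_le_of_ne (not_lt.1 l) e.symm)).symm
    obtain ⟨d, hd⟩ := Nat.exists_eq_add_of_lt (Fin.lt_def.1 l)
    have := h3 (d + 1) (by omega) (lt_of_lt_of_le (Nat.cast_lt.2 (by omega)) hN) x hx y hy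
    rw [hd, add_assoc, cj_add, Commute, SemiconjBy, ← cj_mul, ← cj_mul]
    exact congrArg _ this
  induction n using ENat.recTopCoe with
  | top => exact ⟨t, R + 2, by omega, k _ le_top, fun a ha x _ => by
      rw [Nat.mod_eq_of_lt (by omega)]⟩
  | coe N =>
    refine ⟨t, N, by exact_mod_cast h2, k _ le_rfl, fun a _ x hx => ?_⟩
    conv_rhs => rw [← Nat.mod_add_div a N, cj_add]
    congr 1
    rw [cj, pow_mul, ← ((h4 N rfl x hx).pow_right _).eq, mul_inv_cancel_right]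

/-- the invariant of the construction -/
def Iv (m : ℕ) (S : Finset Γ) (δ σ : ℝ) : Prop :=
  ∃ (Ω : Type) (_ : Fintype Ω) (_ : Nonempty Ω) (w : Ω → Γ) (F : Set Γ), F.Finite ∧
    ∀ g : Fin m → Γ, (∀ i, g i ∈ S) → ∃ ρ : (Fin m → Ω) → ℝ, 𝔼 ω, (ρ ω - 1) ^ 2 ≤ σ ∧
      ∀ c : (Fin m → Γ) → ℂ, (∀ z, ‖c z‖ ≤ 1) → (∀ x ∈ F, ∀ z, c (fun i => x * z i) = c z) →
        ‖(𝔼 ω : Fin m → Ω, c fun i => g i * w (ω i)) -
          𝔼 ω : Fin m → Ω, ρ ω * c fun i => w (ω i)‖ ≤ δ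

variable {m : ℕ} {S : Finset Γ} {δ σ δ' σ' : ℝ}

theorem Iv.mono (h : Iv m S δ σ) (h1 : δ ≤ δ') (h2 : σ ≤ σ') : Iv m S δ' σ' :=
  let ⟨Ω, a, b, w, F, f, h⟩ := h
  ⟨Ω, a, b, w, F, f, fun g hg => (h g hg).imp fun _ k =>
    ⟨k.1.trans h2, fun c c1 c2 => (k.2 c c1 c2).trans h1⟩⟩

theorem base (m : ℕ) (S : Finset Γ) (R : ℕ) : ∃ σ, Iv m S (2 * m / (R + 1)) σ := by
  classical
  refine ⟨Fintype.card (Fin m → Fin (R + 1) × Option (Fin S.card)) ^ 2 + 1, Fin (R + 1) × Option (Fin S.card),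
    inferInstance, inferInstance, fun ω => if ω.1 = Fin.last R then
      ω.2.elim 1 fun j => S.equivFin.symm j else 1, ∅, Set.finite_empty, fun g hg => ?_⟩
  refine ⟨fun ω => if (fun i => (Fin.last R, some (S.equivFin ⟨g i, hg i⟩))) = ω then
    Fintype.card (Fin m → Fin (R + 1) × Option (Fin S.card)) else 0,
    expect_le univ_nonempty fun ω _ => ?_, fun c c1 _ => ?_⟩
  · have : (1 : ℝ) ≤ Fintype.card (Fin m → Fin (R + 1) × Option (Fin S.card)) := by
      exact_mod_cast Fintype.card_pos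
    dsimp only
    split_ifs <;> nlinarith
  · refine le_of_eq_of_le (congrArg norm (congrArg₂ _ rfl ?_))
      (bad (g := fun _ => c g) (fun _ => c1 _) (fun _ => c1 _) fun ω e => ?_)
    · rw [Fintype.expect_const, Fintype.expect_eq_sum_div_card, sum_eq_single_of_mem
        (fun i => (Fin.last R, some (S.equivFin ⟨g i, hg i⟩))) (mem_univ _)
        fun ω _ e => by dsimp only; rw [if_neg e.symm]; simp]
      dsimp only
      rw [if_pos rfl, Complex.ofReal_natCast, mul_div_cancel_left₀ _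
        (Nat.cast_ne_zero.2 Fintype.card_ne_zero)]
      simp
    · simp [e]

theorem step (h : CommutingCyclicConjugates Γ) (P : Iv m S δ σ) (R : ℕ) :
    Iv m S (δ + m / (R + 1)) (σ / 2 + δ ^ 2 / 2) := by
  obtain ⟨Ω, _, _, w, F, f, P⟩ := P
  obtain ⟨t, N, N2, C1, C2⟩ := exists_N h (H := Subgroup.closure (S ∪ F ∪ Set.range w))
    ((Subgroup.fg_iff _).2 ⟨_, rfl, (S.finite_toSet.union f).union (Set.finite_range w)⟩) (R + 1)
  obtain ⟨Q, hQ⟩ := exists_prod (fun (p : Fin N) x => cj t p (w x)) fun p q e x y =>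
    C1 p q e _ (Subgroup.subset_closure (.inr ⟨x, rfl⟩)) _ (Subgroup.subset_closure (.inr ⟨y, rfl⟩))
  refine ⟨Fin (R + 1) × (Fin N → Ω), inferInstance, inferInstance, fun ω => (t ^ (ω.1 : ℕ))⁻¹ * Q ω.2,
    insert t (F ∪ cj t 1 '' F), (f.union (f.image _)).insert t, fun g hg => ?_⟩
  obtain ⟨ρ, r1, r2⟩ := P g hg
  let k (j : ℕ) (a : Fin (R + 1)) : Fin N := ⟨(a + j) % N, Nat.mod_lt _ (by omega)⟩
  let get (j : ℕ) (ω : Fin m → Fin (R + 1) × (Fin N → Ω)) (i : Fin m) : Ω := (ω i).2 (k j (ω i).1)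
  let set (j : ℕ) (ω : Fin m → Fin (R + 1) × (Fin N → Ω)) (z : Fin m → Ω) (i : Fin m) :
    Fin (R + 1) × (Fin N → Ω) := ((ω i).1, update (ω i).2 (k j (ω i).1) (z i))
  have g1 : ∀ j ω z, get j (set j ω z) = z := fun j ω z => funext fun i => by simp [get, set]
  have g2 : ∀ j ω z, set j (set j ω z) (get j ω) = ω := fun j ω z => funext fun i => by
    simp [get, set]
  have g3 : ∀ ω z, get 1 (set 0 ω z) = get 1 ω := fun ω z => funext fun i =>
    update_of_ne (fun e => by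
      have := (Nat.modEq_iff_dvd' (Nat.le_succ _)).1 (Fin.val_eq_of_eq e).symm
      have := Nat.le_of_dvd (by omega) this
      omega) _ _
  refine ⟨fun ω => (ρ (get 0 ω) + ρ (get 1 ω)) / 2, ?_, fun c c1 c2 => ?_⟩
  · have a0 : |𝔼 z, (ρ z - 1)| ≤ δ := by
      have := r2 (fun _ => 1) (by simp) (by simp)
      simp only [mul_one] at this
      rwa [← Complex.ofReal_one, ← Complex.ofReal_expect, ← Complex.ofReal_expect,
        ← Complex.ofReal_sub, Complex.norm_real, Real.norm_eq_abs, abs_sub_comm,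
        ← expect_sub_distrib] at this
    have a1 := fun j => law (g1 j) (g2 j) fun z => (ρ z - 1) ^ 2
    have a2 : 𝔼 ω, (ρ (get 0 ω) - 1) * (ρ (get 1 ω) - 1) = (𝔼 z, (ρ z - 1)) ^ 2 := by
      rw [resample (g1 0) (g2 0)]
      simp only [g1, g3, ← expect_mul, ← mul_expect]
      rw [law (g1 1) (g2 1) fun z => ρ z - 1, sq]
    calc _ = 𝔼 ω, (((ρ (get 0 ω) - 1) ^ 2 + (ρ (get 1 ω) - 1) ^ 2) / 4 +
          (ρ (get 0 ω) - 1) * (ρ (get 1 ω) - 1) / 2) := expect_congr rfl fun _ _ => by ring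
      _ ≤ _ := by
          rw [expect_add_distrib, ← expect_div, ← expect_div, expect_add_distrib, a1, a1, a2]
          linarith [sq_le_sq' (abs_le.1 a0).1 (abs_le.1 a0).2]
  let X (j : ℕ) (ω : Fin m → Fin (R + 1) × (Fin N → Ω)) : ℂ :=
    c fun i => (t ^ ((ω i).1 : ℕ))⁻¹ * (cj t (k j (ω i).1) (g i) * Q (ω i).2)
  have A : ∀ j ≤ 1, ‖(𝔼 ω, X j ω) - 𝔼 ω, ρ (get j ω) * c fun i => (t ^ ((ω i).1 : ℕ))⁻¹ * Q (ω i).2‖ ≤
      δ := fun j hj => by
    rw [← expect_sub_distrib, resample (g1 j) (g2 j)]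
    refine (norm_le (g := fun _ => δ) fun ω => ?_).trans_eq (Fintype.expect_const _)
    choose r hr using fun i => hQ (k j (ω i).1) (ω i).2
    rw [expect_sub_distrib]
    convert r2 (fun v => c fun i => (t ^ ((ω i).1 : ℕ))⁻¹ * (cj t (k j (ω i).1) (v i) * r i))
      (fun _ => c1 _) fun x hx v => ?_ using 4 with z _ z
    · simp only [X, set, hr, cj_mul, mul_assoc]
    · simp only [g1, set, hr]
    · refine Eq.trans (congrArg c (funext fun i => ?_)) (c2 (cj t j x) (.inr ?_) _)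
      · rw [cj_mul, C2 _ (by omega) x (Subgroup.subset_closure (.inl (.inr hx))), cj_add]
        simp [cj, mul_assoc]
      · rcases Nat.le_one_iff_eq_zero_or_eq_one.1 hj with rfl | rfl
        · exact .inl (by simpa [cj] using hx)
        · exact .inr ⟨x, hx, rfl⟩
  have B : ‖(𝔼 ω, X 0 ω) - 𝔼 ω, X 1 ω‖ ≤ 2 * m / (R + 1) := by
    rw [← Fintype.expect_equiv (Equiv.piCongrRight fun _ => (Equiv.addRight 1).prodCongr (.refl _))
      _ (X 0) fun _ => rfl]
    refine bad (fun _ => c1 _) (fun _ => c1 _) fun ω e => ?_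
    refine (c2 t (.inl rfl) _).symm.trans (congrArg c (funext fun i => ?_))
    have : (((ω i).1 + 1 : Fin (R + 1)) : ℕ) = (ω i).1 + 1 := by rw [Fin.val_add_one, if_neg (e i)]
    simp [k, this, pow_succ, mul_assoc]
  have C : ∀ ω, X 0 ω = c fun i => g i * ((t ^ ((ω i).1 : ℕ))⁻¹ * Q (ω i).2) := fun ω =>
    congrArg c (funext fun i => by
      rw [C2 _ (by omega) _ (Subgroup.subset_closure (.inl (.inl (hg i))))]
      simp [cj, mul_assoc])
  simp only [← C]
  have e : ∀ a b u v : ℂ, a - (u + v) / 2 = ((a - u) + (b - v) + (a - b)) / 2 := fun _ _ _ _ => by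
    ring
  simp only [Complex.ofReal_div, Complex.ofReal_add, div_mul_eq_mul_div, add_mul, ← expect_div,
    expect_add_distrib, Complex.ofReal_ofNat]
  rw [e _ (𝔼 ω, X 1 ω), norm_div, Complex.norm_two, div_le_iff₀ two_pos]
  refine (norm_add_le_of_le (norm_add_le_of_le (A 0 zero_le_one) (A 1 le_rfl)) B).trans_eq ?_
  ring

end Erg

open Erg in
theorem ccc_avg {Γ : Type*} [Group Γ] (h : CommutingCyclicConjugates Γ) (m : ℕ) (S : Finset Γ)
    {ε : ℝ} (hε : 0 < ε) : ∃ (Ω : Type) (_ : Fintype Ω) (_ : Nonempty Ω) (w : Ω → Γ),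
      ∀ c : (Fin m → Γ) → ℂ, (∀ z, ‖c z‖ ≤ 1) → (∀ x z, c (fun i => x * z i) = c z) →
        ∀ g : Fin m → Γ, (∀ i, g i ∈ S) →
          ‖(𝔼 ω : Fin m → Ω, c fun i => g i * w (ω i)) - 𝔼 ω : Fin m → Ω, c fun i => w (ω i)‖ ≤ ε := by
  obtain ⟨d, rfl⟩ : ∃ d, ε = 5 * d / 2 := ⟨2 * ε / 5, by ring⟩
  have d0 : 0 < d := by linarith
  have sm : ∀ η > (0 : ℝ), ∃ R : ℕ, 2 * (m : ℝ) / (R + 1) < η := fun η hη => by
    obtain ⟨R, hR⟩ := exists_nat_gt (2 * (m : ℝ) / η)
    rw [div_lt_iff₀' hη] at hR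
    exact ⟨R, by rw [div_lt_iff₀ (by positivity)]; linarith⟩
  obtain ⟨R, hR⟩ := sm d d0
  obtain ⟨σ, b⟩ := base m S R
  have it : ∀ k : ℕ, ∃ δ, 0 ≤ δ ∧ δ < d ∧ Iv m S δ (σ * (1 / 2) ^ k + d ^ 2) := fun k => by
    induction k with
    | zero => exact ⟨_, by positivity, hR, b.mono le_rfl (by simpa using sq_nonneg d)⟩
    | succ k ih =>
      obtain ⟨δ, h0, h1, h2⟩ := ih
      obtain ⟨R, hR⟩ := sm (d - δ) (by linarith)
      have : (0 : ℝ) ≤ m / (R + 1) := by positivity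
      rw [mul_div_assoc] at hR
      exact ⟨_, by positivity, by linarith, (step h h2 R).mono le_rfl (by
        rw [pow_succ (1 / 2 : ℝ)]; nlinarith)⟩
  obtain ⟨k, hk⟩ := ((tendsto_pow_atTop_nhds_zero_of_lt_one (r := (1 / 2 : ℝ)) (by norm_num)
    (by norm_num)).const_mul σ).eventually (gt_mem_nhds (show σ * 0 < d ^ 2 by rw [mul_zero]; positivity)) |>.exists
  obtain ⟨δ, -, h1, Ω, _, _, w, F, -, P⟩ := it k
  refine ⟨Ω, inferInstance, inferInstance, w, fun c c1 c2 g hg => ?_⟩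
  obtain ⟨ρ, r1, r2⟩ := P g hg
  refine (norm_sub_le_norm_sub_add_norm_sub _ _ _).trans ((add_le_add (r2 c c1 fun x _ => c2 x)
    (?_ : _ ≤ 3 * d / 2)).trans (by linarith))
  rw [← expect_sub_distrib]
  refine (norm_le (g := fun ω => (ρ ω - 1) ^ 2 / (2 * d) + d / 2) fun ω => ?_).trans ?_
  · rw [← sub_one_mul, norm_mul, ← Complex.ofReal_one, ← Complex.ofReal_sub, Complex.norm_real,
      Real.norm_eq_abs, ← sq_abs, div_add' _ _ _ (by positivity), le_div_iff₀ (by positivity)]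
    nlinarith [sq_nonneg (|ρ ω - 1| - d), mul_le_mul_of_nonneg_left (c1 fun i => w (ω i))
      (mul_nonneg (abs_nonneg (ρ ω - 1)) d0.le)]
  · rw [expect_add_distrib, ← expect_div, Fintype.expect_const, div_add' _ _ _ (by positivity),
      div_le_iff₀ (by positivity)]
    nlinarith

end Pool.Agent.Lib.MP_08bba9_an
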