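import Mathlib

/-! The Hochschild faces of a tuple and the coboundary of a bounded multilinear map. -/

noncomputable section

namespace Pool.Agent.Lib.MP_08bba9_an

open Fin

section tuples

variable {A : Type*} [Mul A] {n : ℕ}

/-- The faces `(a₀, …, aᵢaᵢ₊₁, …, aₙ₊₁)` for `i ≤ n`, and `(aₙ₊₁a₀, a₁, …, aₙ)` for `i = n + 1`. -/
def face (i : Fin (n + 2)) (a : Fin (n + 2) → A) : Fin (n + 1) → A :=
  if i = last (n + 1) then cons (a (last (n + 1)) * a 0) fun k : Fin n => a k.succ.castSucc
  else contractNth i (· * ·) a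

theorem face_last (a : Fin (n + 2) → A) :
    face (last _) a = cons (a (last _) * a 0) fun k : Fin n => a k.succ.castSucc := if_pos rfl

theorem face_castSucc (i : Fin (n + 1)) (a : Fin (n + 2) → A) :
    face i.castSucc a = contractNth i.castSucc (· * ·) a := if_neg (castSucc_lt_last i).ne

theorem contract_zero (x : A) (l : Fin (n + 1) → A) :
    contractNth 0 (· * ·) (cons x l : Fin (n + 2) → A) = cons (x * l 0) (tail l) := by
  funext k
  refine Fin.cases ?_ (fun k => ?_) k
  · rw [contractNth_apply_of_eq _ _ _ _ rfl]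
    rfl
  · rw [contractNth_apply_of_gt _ _ _ _ (by simp)]
    rfl

theorem contract_succ (j : Fin (n + 1)) (x : A) (l : Fin (n + 1) → A) :
    contractNth j.succ (· * ·) (cons x l : Fin (n + 2) → A) = cons x (contractNth j (· * ·) l) := by
  funext k
  refine Fin.cases ?_ (fun k => ?_) k
  · rw [contractNth_apply_of_lt _ _ _ _ (by simp)]
    rfl
  · simp only [contractNth, val_succ, Nat.add_lt_add_iff_right, Nat.add_right_cancel_iff,
      cons_succ, ← succ_castSucc]

omit [Mul A] in
theorem rot_eq (a : Fin (n + 1) → A) : (fun i => a (i - 1)) = cons (a (last n)) (init a) := by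
  funext k
  refine Fin.cases ?_ (fun k => ?_) k
  · rw [zero_sub, ← Fin.neg_last, neg_neg]
    rfl
  · rw [cons_succ, init, ← coeSucc_eq_succ, add_sub_cancel_right]

theorem face_zero_rot (a : Fin (n + 2) → A) : face 0 (fun i => a (i - 1)) = face (last _) a := by
  rw [rot_eq, face_last, ← castSucc_zero, face_castSucc, castSucc_zero, contract_zero]
  rfl

theorem face_succ_rot (i : Fin (n + 1)) (a : Fin (n + 2) → A) :
    face i.succ (fun i => a (i - 1)) = fun k => face i.castSucc a (k - 1) := by
  rw [rot_eq, rot_eq, face_castSucc]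
  refine Fin.lastCases ?_ (fun i => ?_) i
  · rw [succ_last, face_last, contractNth_apply_of_eq _ _ _ _ (by simp)]
    congr 1
    funext k
    rw [init, contractNth_apply_of_lt _ _ _ _ (by simp), ← succ_castSucc, cons_succ]
    rfl
  · rw [succ_castSucc, face_castSucc, ← succ_castSucc, contract_succ,
      contractNth_apply_of_gt _ _ _ _ (by simp)]
    congr 1

end tuples

variable {A F : Type*} [NormedRing A] [NormedAlgebra ℂ A] [NormedAddCommGroup F] [NormedSpace ℂ F]
  {n : ℕ}

/-- Bounded `(n+1)`-linear maps on `A` with values in `F`. -/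
abbrev Multi (A F : Type*) [NormedRing A] [NormedAlgebra ℂ A] [NormedAddCommGroup F]
    [NormedSpace ℂ F] (n : ℕ) :=
  ContinuousMultilinearMap ℂ (fun _ : Fin (n + 1) => A) F

theorem ex_face (i : Fin (n + 2)) (f : Multi A F n) :
    ∃ g : Multi A F (n + 1), ‖g‖ ≤ ‖f‖ ∧ ∀ a, f (face i a) = g a := by
  induction i using Fin.induction generalizing f with
  | zero =>
    let e := (continuousMultilinearCurryLeftEquiv ℂ (fun _ : Fin (n + 1) => A) F).symm
    let G : A →L[ℂ] Multi A F n := (e : _ →L[ℂ] _) ∘L
      (ContinuousLinearMap.compL ℂ A A _ f.curryLeft) ∘L ContinuousLinearMap.mul ℂ A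
    have hG : ∀ x l, G x l = f (cons (x * l 0) (tail l)) := fun x l => rfl
    refine ⟨G.uncurryLeft, ?_, fun a => ?_⟩
    · rw [ContinuousLinearMap.uncurryLeft_norm]
      refine G.opNorm_le_bound (norm_nonneg _) fun x =>
        (G x).opNorm_le_bound (by positivity) fun l => ?_
      rw [hG]
      refine (f.le_opNorm _).trans ?_
      rw [prod_univ_succ, prod_univ_succ, cons_zero, mul_assoc, ← mul_assoc ‖x‖]
      simp only [cons_succ, tail]
      gcongr
      exact norm_mul_le _ _
    · rw [← cons_self_tail a, ← castSucc_zero, face_castSucc, castSucc_zero, contract_zero]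
      rfl
  | succ i ih =>
    obtain ⟨g, h1, h2⟩ := ih (f.domDomCongr (finRotate _).symm)
    refine ⟨g.domDomCongr (finRotate _), by simpa using h1, fun a => ?_⟩
    have := face_succ_rot i fun k => a (k + 1)
    simp only [sub_add_cancel] at this
    simp [this, ← h2]

/-- The map `f ↦ f ∘ face i` on bounded multilinear maps. -/
def faceMap (i : Fin (n + 2)) (f : Multi A F n) : Multi A F (n + 1) :=
  MultilinearMap.mkContinuous
    { toFun := fun a => f (face i a)
      map_update_add' := by
        obtain ⟨g, -, h⟩ := ex_face i f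
        simp [h]
      map_update_smul' := by
        obtain ⟨g, -, h⟩ := ex_face i f
        simp [h] }
    ‖f‖ fun a => by
      obtain ⟨g, h1, h⟩ := ex_face i f
      exact (h a).symm ▸ g.le_of_opNorm_le h1 a

@[simp] theorem faceMap_apply (i : Fin (n + 2)) (f : Multi A F n) (a : Fin (n + 2) → A) :
    faceMap i f a = f (face i a) := rfl

/-- The Hochschild coboundary `(b f)(a₀, …, aₙ₊₁) = ∑ (-1)^i f(face i a)`. -/
def cob : Multi A F n →ₗ[ℂ] Multi A F (n + 1) where
  toFun f := ∑ i : Fin (n + 2), (-1 : ℂ) ^ (i : ℕ) • faceMap i f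
  map_add' f g := by
    ext a
    simp [Finset.sum_add_distrib]
  map_smul' c f := by
    ext a
    simp [Finset.smul_sum, smul_comm c]

/-- The signed cyclic permutation `(t f)(a₀, …, aₙ) = (-1)^n f(aₙ, a₀, …, aₙ₋₁)`. -/
def cyc : Multi A F n →ₗ[ℂ] Multi A F n where
  toFun f := (-1 : ℂ) ^ n • f.domDomCongr (finRotate (n + 1)).symm
  map_add' f g := by
    ext a
    simp
  map_smul' c f := by
    ext a
    simp [smul_comm c]

theorem cob_apply (f : Multi A F n) (a : Fin (n + 2) → A) :
    cob f a = ∑ i : Fin (n + 2), (-1 : ℂ) ^ (i : ℕ) • f (face i a) := by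
  simp [cob]

theorem cyc_apply (f : Multi A F n) (a : Fin (n + 1) → A) :
    cyc f a = (-1 : ℂ) ^ n • f fun i => a (i - 1) := by
  simp [cyc]

theorem cob_sub_cyc (f : Multi A F n) : cob f - cyc (cob f) =
    ∑ i : Fin (n + 1), (-1 : ℂ) ^ (i : ℕ) • faceMap i.castSucc (f - cyc f) := by
  ext a
  rw [sub_apply, cyc_apply, cob_apply, cob_apply, sum_univ_castSucc,
    sum_univ_succ (n := n + 1), face_zero_rot]
  simp only [face_succ_rot, sum_apply, smul_apply,
    faceMap_apply, sub_apply, cyc_apply, smul_sub, Finset.sum_sub_distrib,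
    smul_add, Finset.smul_sum, smul_smul, val_succ, val_castSucc, val_last, val_zero, pow_zero,
    mul_one]
  rw [add_comm (∑ _, _), add_sub_add_left_eq_sub]
  congr 2
  funext i
  congr 1
  ring

end Pool.Agent.Lib.MP_08bba9_an
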