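import Pool.Agent.Lib.MP_08bba9_an.Bal
import Pool.Agent.Lib.MP_08bba9_an.Erg

/-! Averaging balanced cocycles over a group with commuting cyclic conjugates. -/

noncomputable section

namespace Pool.Agent.Lib.MP_08bba9_an

open Filter Topology List
open scoped BigOperators

variable {A Γ : Type*} [NormedRing A] [NormedAlgebra ℂ A] [Group Γ] {n : ℕ} {C : ℝ}
  {Φ : List A → ℂ}

theorem Zl.bl (h : Zl (n + 1) C Φ) (ho : OB n (cs 1 Φ)) : Bl n Φ := by
  refine ⟨_, _, mul_nonneg h.c0 (norm_nonneg _), h.ml.2 1, ho, fun l hl => ?_⟩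
  obtain ⟨a, l, rfl⟩ := exists_cons_of_length_eq_add_one hl
  have : Φ (1 * a :: l) - dl a l (cs 1 Φ) = 0 := h.z (1 :: a :: l) (congrArg (· + 1) hl)
  rwa [one_mul, sub_eq_zero] at this

/-- successive quotients -/
def dif : Γ → List Γ → List Γ
  | _, [] => []
  | x, z :: l => x⁻¹ * z :: dif z l

theorem dif_map (y x : Γ) (l : List Γ) : dif (y * x) (l.map (y * ·)) = dif x l := by
  induction l generalizing x with
  | nil => rfl
  | cons z l ih => simp [dif, ih, mul_assoc]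

variable {Ω : Type} [Fintype Ω] (w : Ω → Γ)

/-- iterated averages -/
def Ex : List Γ → (List Γ → ℂ) → ℂ
  | [], F => F []
  | G :: l, F => 𝔼 s, Ex l fun z => F (G * w s :: z)

theorem Ex_ofFn {m : ℕ} (G : Fin m → Γ) (F : List Γ → ℂ) :
    Ex w (ofFn G) F = 𝔼 ω : Fin m → Ω, F (ofFn fun i => G i * w (ω i)) := by
  induction m generalizing F with
  | zero => simp [Ex]
  | succ m ih =>
    rw [ofFn_succ, Ex, ← Fintype.expect_equiv (Fin.consEquiv fun _ => Ω) _ _ fun _ => rfl,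
      ← Finset.univ_product_univ, Finset.expect_product]
    simp [ih, Fin.consEquiv]

variable (u : Γ →* A) (D : Subalgebra ℂ A)

/-- homogeneous elements -/
def Gr (h : Γ) (x : A) : Prop := ∃ d ∈ D, x = u h * d

/-- functionals that are central for `D` -/
def Cen (f : A →L[ℂ] ℂ) : Prop := ∀ d ∈ D, ∀ x, f (d * x) = f (x * d)

variable {w u D} (hD : ∀ g, ∀ d ∈ D, u g⁻¹ * d * u g ∈ D)

omit [NormedAlgebra ℂ A] in
theorem u_inv (g : Γ) (x : A) : u g * (u g⁻¹ * x) = x := by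
  rw [← mul_assoc, ← map_mul, mul_inv_cancel, map_one, one_mul]

omit [NormedAlgebra ℂ A] in
theorem inv_u (g : Γ) (x : A) : u g⁻¹ * (u g * x) = x := by
  simpa using u_inv (u := u) g⁻¹ x

theorem Gr.smul (c : ℂ) (g : Γ) : Gr u D g (c • u g) := ⟨c • 1, D.smul_mem D.one_mem c, by simp⟩

theorem Gr.self (g : Γ) : Gr u D g (u g) := ⟨1, D.one_mem, by simp⟩

include hD

theorem Gr.mul {g h : Γ} {x y : A} (hx : Gr u D g x) (hy : Gr u D h y) :
    Gr u D (g * h) (x * y) := by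
  obtain ⟨d, hd, rfl⟩ := hx
  obtain ⟨e, he, rfl⟩ := hy
  exact ⟨_, D.mul_mem (hD h d hd) he, by simp only [map_mul, mul_assoc, u_inv]⟩

theorem push (hb : Bal n D Φ) {hs : List Γ} {xs : List A} (h : Forall₂ (Gr u D) hs xs) :
    ∀ e ∈ D, ∃ d ∈ D, e * xs.prod = u hs.prod * d ∧ ∀ l₁ x y, l₁.length + xs.length = n →
      Φ (l₁ ++ x * e :: (xs ++ [y])) = Φ (l₁ ++ x :: (hs.map u ++ [d * y])) := by
  induction h with
  | nil => exact fun e he => ⟨e, he, by simp, fun l₁ x y hl => hb e he l₁ x y [] hl⟩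
  | @cons g z hs xs hz _ ih =>
    intro e he
    obtain ⟨d, hd, rfl⟩ := hz
    obtain ⟨c, hc, h1, h2⟩ := ih _ (D.mul_mem (hD g e he) hd)
    have e1 : e * (u g * d) = u g * (u g⁻¹ * e * u g * d) := by simp only [mul_assoc, u_inv]
    refine ⟨c, hc, by rw [prod_cons, prod_cons, ← mul_assoc, e1, mul_assoc, h1, map_mul, mul_assoc],
      fun l₁ x y hl => (hb e he l₁ x _ _ (by simpa using hl)).trans ?_⟩
    simpa [e1] using h2 (l₁ ++ [x]) (u g) y (by simp at hl ⊢; omega)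

variable {τ : A →L[ℂ] ℂ} (hτ : ∀ f, Cen D f → f = f 1 • τ)

include hτ in
theorem factor (h : ML (n + 2) C Φ) (ho : OB n Φ) (hb : Bal n D Φ) {hs : List Γ} {xs : List A}
    (hx : Forall₂ (Gr u D) hs xs) (hl : xs.length = n) (a y : A) :
    Φ (a :: (xs ++ [y])) = Φ (1 :: (hs.map u ++ [u hs.prod⁻¹])) * τ (xs.prod * (y * a)) := by
  have hl' : (hs.map u).length = n := by rw [length_map, hx.length_eq, hl]
  obtain ⟨f, hf⟩ := h.lastLin (l := 1 :: hs.map u) (congrArg (· + 1) hl')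
  have := hτ (f ∘L ContinuousLinearMap.mul ℂ A (u hs.prod⁻¹)) fun e he x => by
    obtain ⟨d, -, h1, h2⟩ := push hD hb (hs := hs) (xs := hs.map u)
      (forall₂_map_right_iff.2 (forall₂_same.2 fun g _ => Gr.self g)) e he
    have h3 := h2 [] 1 (u hs.prod⁻¹ * x) (by simpa using hl')
    have h4 := ho e 1 (u hs.prod⁻¹ * x) _ hl'
    rw [← map_list_prod] at h1
    have h5 : u hs.prod⁻¹ * (e * x) = d * (u hs.prod⁻¹ * x) := by
      rw [← inv_u (u := u) hs.prod d, ← h1]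
      simp only [mul_assoc, u_inv]
    simp only [ContinuousLinearMap.comp_apply, ContinuousLinearMap.mul_apply', hf, h5]
    simp only [one_mul, mul_one, nil_append, mul_assoc] at h3 h4
    exact h3.symm.trans h4
  obtain ⟨d, -, h1, h2⟩ := push hD hb hx 1 D.one_mem
  have h3 := h2 [] 1 (y * a) (by simpa using hl)
  have h4 := ho a 1 y _ hl
  have h5 := DFunLike.congr_fun this (xs.prod * (y * a))
  rw [one_mul] at h1
  simp only [ContinuousLinearMap.comp_apply, ContinuousLinearMap.mul_apply', hf, mul_one,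
    smul_apply, smul_eq_mul] at h5
  simp only [mul_one, nil_append] at h3 h4
  rw [h4, h3, ← cons_append, ← cons_append, ← h5, h1, mul_assoc, inv_u]

theorem Tl_Ex {F : List Γ → ℂ} {f : A →ₗ[ℂ] ℂ} {G z : Γ} {Gs : List Γ} {b : A} {xs : List A}
    (hb : Gr u D (z⁻¹ * G) b) (hx : Forall₂ (Gr u D) (dif G Gs) xs) (y : A)
    (h : ∀ hs ys y, Forall₂ (Gr u D) hs ys → ys.length = xs.length + 1 →
      Φ (ys ++ [y]) = F hs * f (ys.prod * y)) :
    Tl (fun s => (Fintype.card Ω : ℂ)⁻¹ • u (w s)) (fun s => u (w s)⁻¹) b (xs ++ [y]) Φ =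
      Ex w (G :: Gs) (fun zs => F (dif z zs)) * f (b * (xs.prod * y)) := by
  induction Gs generalizing F f G z b xs Φ with
  | nil =>
    cases hx
    rw [nil_append, Tl_cons, Ex, Fintype.expect_eq_sum_div_card, Finset.sum_div, Finset.sum_mul]
    refine Finset.sum_congr rfl fun s _ => (h [_] [_] _ (.cons (hb.mul hD (Gr.smul _ _)) .nil)
      rfl).trans ?_
    simp [Ex, dif, mul_assoc, u_inv, div_eq_mul_inv]
  | cons G' Gs ih =>
    rcases hx with _ | ⟨hx', hx⟩
    rw [cons_append, Tl_cons, Ex, Fintype.expect_eq_sum_div_card, Finset.sum_div, Finset.sum_mul]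
    refine Finset.sum_congr rfl fun s _ => ?_
    have k := hb.mul hD (Gr.smul (Fintype.card Ω : ℂ)⁻¹ (w s))
    rw [ih (F := fun hs => F (z⁻¹ * G * w s :: hs)) (z := G * w s)
      (f := f ∘ₗ LinearMap.mulLeft ℂ (b * (Fintype.card Ω : ℂ)⁻¹ • u (w s))) (by simpa [mul_assoc] using (Gr.self (w s)⁻¹).mul hD hx') hx fun hs ys y h1 h2 =>
        (h _ (_ :: ys) y (.cons k h1) (congrArg (· + 1) h2)).trans (by simp [mul_assoc])]
    simp [dif, mul_assoc, u_inv, div_eq_mul_inv]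

omit hD in
theorem ex_dif {xs : List A} (h : ∀ x ∈ xs, ∃ g, Gr u D g x) (G : Γ) :
    ∃ Gs : List Γ, Gs.length = xs.length ∧ Forall₂ (Gr u D) (dif G Gs) xs := by
  induction xs generalizing G with
  | nil => exact ⟨[], rfl, .nil⟩
  | cons x xs ih =>
    obtain ⟨g, hg⟩ := h x mem_cons_self
    obtain ⟨Gs, h1, h2⟩ := ih (fun y hy => h y (mem_cons_of_mem _ hy)) (G * g)
    exact ⟨G * g :: Gs, congrArg (· + 1) h1, .cons (by simpa using hg) h2⟩

include hτ in
theorem Zl.grp (hΓ : CommutingCyclicConjugates Γ) (hu : ∀ g, ‖u g‖ ≤ 1)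
    (hd : Dense (Submodule.span ℂ {x | ∃ g, Gr u D g x} : Set A)) (ht : τ ∈ Traces A)
    (hc : Cen D τ) (h : Zl (n + 1) C Φ) (hb : Bal (n + 1) D Φ) : Bl n Φ := by
  classical
  choose Ω _ _ w hw using fun i : Finset Γ × ℕ =>
    ccc_avg hΓ (n + 2) i.1 (Nat.one_div_pos_of_nat (n := i.2))
  obtain ⟨Ψ, k1, k2, k3⟩ := h.lim (.of atTop) (K := 1)
    (p := fun i s => (Fintype.card (Ω i) : ℂ)⁻¹ • u (w i s)) (q := fun i s => u (w i s)⁻¹)
    (fun i => by simp [← map_mul, ← Nat.cast_smul_eq_nsmul ℂ, smul_smul]) fun i =>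
      (Finset.sum_le_card_nsmul _ _ (Fintype.card (Ω i) : ℝ)⁻¹ fun s _ => by
        rw [norm_smul]
        grw [hu, hu]
        simp).trans (by simp)
  set F := fun hs : List Γ => Φ (1 :: (hs.tail.map u ++ [u hs.tail.prod⁻¹]))
  set c := fun z : Fin (n + 2) → Γ => ((C + 1 : ℝ) : ℂ)⁻¹ * F (dif 1 (ofFn z))
  have c0 := h.c0
  have c1 : ∀ z, ‖c z‖ ≤ 1 := fun z => by
    have e1 : ∀ l : List Γ, np (l.map u) ≤ 1 := fun l => by
      induction l with
      | nil => exact le_rfl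
      | cons g l ih => exact (np_cons ..).trans_le (mul_le_one₀ (hu g) (np_nonneg _) ih)
    have e2 : ∀ (l : List Γ) x, (dif x l).length = l.length := fun l => by
      induction l <;> simp [dif, *]
    have := h.ml.bound (l := map u (1 :: ((dif 1 (ofFn z)).tail ++ [(dif 1 (ofFn z)).tail.prod⁻¹])))
      (by simp [e2])
    rw [norm_mul, norm_inv, Complex.norm_real, Real.norm_of_nonneg (by positivity),
      inv_mul_le_one₀ (by positivity)]
    grw [e1] at this
    simp only [map_cons, map_one, map_append, map_nil] at this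
    linarith
  have c2 : ∀ x z, c (fun i => x * z i) = c z := fun x z => by
    have := dif_map x (z 0) (ofFn fun i => z i.succ)
    rw [map_ofFn] at this
    simp only [c, F, ofFn_succ (n := n + 1), dif, tail_cons]
    rw [← this]
    rfl
  set e := fun i => 𝔼 ω : Fin (n + 2) → Ω i, c fun j => w i (ω j)
  have key : ∀ l : List A, l.length = n + 3 → (∀ x ∈ l, ∃ g, Gr u D g x) →
      Tendsto (fun i => (C + 1 : ℝ) * e i * τ l.prod) (Ultrafilter.of (α := Finset Γ × ℕ) atTop)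
        (𝓝 (Ψ l)) := by
    intro l hl hg
    obtain ⟨a, l, rfl⟩ := exists_cons_of_length_eq_add_one hl
    obtain ⟨xs, y, rfl⟩ := eq_nil_or_concat' l |>.resolve_left (by rintro rfl; simp at hl)
    obtain ⟨Gs, h1, h2⟩ := ex_dif (xs := a :: xs) (fun x hx => hg x (by
      rw [← cons_append]; exact mem_append_left _ hx)) 1
    obtain ⟨G, rfl⟩ : ∃ G : Fin (n + 2) → Γ, ofFn G = Gs :=
      (show Gs.length = n + 2 by simp at hl h1; omega) ▸ ⟨Gs.get, ofFn_get Gs⟩
    have h3 : ∀ i, TL (fun s => (Fintype.card (Ω i) : ℂ)⁻¹ • u (w i s)) (fun s => u (w i s)⁻¹) Φ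
        (a :: (xs ++ [y])) = (C + 1 : ℝ) * (𝔼 ω : Fin (n + 2) → Ω i, c fun j => G j * w i (ω j)) *
          τ (a :: (xs ++ [y])).prod := fun i => by
      rw [Finset.mul_expect]
      simp only [c, mul_inv_cancel_left₀ (show ((C + 1 : ℝ) : ℂ) ≠ 0 by norm_cast; positivity)]
      rw [← Ex_ofFn (w i) G fun z => F (dif 1 z)]
      rw [ofFn_succ] at h2 ⊢
      rcases h2 with _ | ⟨h4, h5⟩
      refine (Tl_Ex hD (F := F) (f := τ) h4 h5 y fun hs ys y h1 h2 => ?_).trans (by simp)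
      rcases h1 with _ | ⟨-, h1⟩
      · simp at h2
      · rw [cons_append, factor hD hτ h.ml h.ob hb h1 (by simp at hl h2; omega), ← mul_assoc, ht,
          prod_cons, mul_assoc]
        rfl
    refine (k3 _ hl).congr_dist ?_
    simp only [h3, dist_eq_norm, ← sub_mul, ← mul_sub]
    refine Tendsto.mono_left ?_ (Ultrafilter.of_le atTop)
    refine squeeze_zero' (.of_forall fun _ => norm_nonneg _)
      (g := fun i => ‖((C + 1 : ℝ) : ℂ)‖ * (1 / ((i.2 : ℝ) + 1)) * ‖τ (a :: (xs ++ [y])).prod‖) ?_ (by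
      simpa using (((tendsto_one_div_add_atTop_nhds_zero_nat (𝕜 := ℝ)).comp
        ((prod_atTop_atTop_eq (α := Finset Γ) (β := ℕ)) ▸ tendsto_snd)).const_mul
          ‖((C + 1 : ℝ) : ℂ)‖).mul_const ‖τ (a :: (xs ++ [y])).prod‖)
    filter_upwards [eventually_ge_atTop (Finset.univ.image G, 0)] with i hi
    rw [norm_mul, norm_mul]
    gcongr
    exact hw i c c1 c2 G fun j => hi.1 (Finset.mem_image_of_mem _ (Finset.mem_univ j))
  have k4 : ∀ l, l.length = n + 3 → Ψ l = Ψ (replicate (n + 3) 1) * τ l.prod := fun l hl =>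
    sub_eq_zero.1 ((k1.ml.sub ((ML.prod _ τ).smul (Ψ (replicate (n + 3) 1)))).dense hd
      (fun l hl hg => sub_eq_zero.2 (tendsto_nhds_unique (key l hl hg) (by
        have := (key (replicate (n + 3) 1) (by simp) fun x hx => ⟨1, by
          rw [eq_of_mem_replicate hx, ← map_one u]; exact Gr.self 1⟩).mul_const (τ l.prod)
        have e1 : τ 1 * τ l.prod = τ l.prod := (DFunLike.congr_fun (hτ τ hc) _).symm
        simpa only [prod_replicate, one_pow, mul_assoc, e1, Pi.smul_apply, smul_eq_mul]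
          using this))) hl)
  simpa using k2.add (k1.bl fun c a y m hm => by
    change Ψ (1 :: _) = Ψ (1 :: _)
    rw [k4 _ (by simp [hm]), k4 (1 :: _) (by simp [hm])]
    simp only [prod_cons, prod_append, prod_nil, mul_one, one_mul, mul_assoc]
    rw [ht c]
    simp only [mul_assoc])

theorem ex_trace (hd : Dense (Submodule.span ℂ {x | ∃ g, Gr u D g x} : Set A))
    (h0 : ∀ f, Cen D f → f 1 = 0 → f = 0) : ∃ τ ∈ Traces A, Cen D τ ∧ (τ 1 = 1 ∨ τ = 0) ∧
      ∀ f, Cen D f → f = f 1 • τ := by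
  obtain ⟨τ, h1, h2, h3⟩ : ∃ τ, Cen D τ ∧ (τ 1 = 1 ∨ τ = 0) ∧ ∀ f, Cen D f → f = f 1 • τ := by
    by_cases h : ∃ f, Cen D f ∧ f 1 ≠ 0
    · obtain ⟨f, h1, h2⟩ := h
      exact ⟨(f 1)⁻¹ • f, fun d hd x => by simp [h1 d hd], .inl (by simp [h2]), fun f' h3 =>
        sub_eq_zero.1 (h0 _ (fun d hd x => by simp [h1 d hd, h3 d hd]) (by simp [h2]))⟩
    · exact ⟨0, fun _ _ _ => rfl, .inr rfl, fun f hf =>
        (h0 f hf (by_contra fun h' => h ⟨f, hf, h'⟩)).trans (by ext; simp)⟩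
  refine ⟨τ, fun a b => ?_, h1, h2, h3⟩
  refine DFunLike.congr_fun (ContinuousLinearMap.ext_on (f := τ ∘L (ContinuousLinearMap.mul ℂ A).flip b)
    (g := τ ∘L ContinuousLinearMap.mul ℂ A b) hd ?_) a
  rintro _ ⟨g, d, hd, rfl⟩
  have := h3 (τ ∘L ContinuousLinearMap.mulLeftRight ℂ A (u g⁻¹) (u g)) fun e he x => by
    simpa [mul_assoc, u_inv] using h1 _ (hD g e he) (u g⁻¹ * x * u g)
  have e := DFunLike.congr_fun this (u g * d * b)
  have e' := DFunLike.congr_fun (h3 τ h1) (u g * d * b)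
  simp only [ContinuousLinearMap.comp_apply, ContinuousLinearMap.mulLeftRight_apply, mul_one,
    ← map_mul, inv_mul_cancel, map_one] at e
  change τ (u g * d * b) = τ (b * (u g * d))
  rw [e', ← e, ← mul_assoc b, ← h1 d hd]
  simp only [mul_assoc, inv_u]

end Pool.Agent.Lib.MP_08bba9_an
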