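import Pool.Agent.Lib.MP_08bba9_an.Stmt

/-! The short-print definitions agree with the working definitions. -/

namespace Pool.Agent.Lib.MP_08bba9_an

variable (A : Type*) [NormedRing A] [NormedAlgebra ℂ A]

theorem st_isAmenable_iff [CompleteSpace A] : St.IsAmenable A ↔ IsAmenable A := Iff.rfl

theorem st_isTwistedTrace_iff (α : A → A) (f : A →L[ℂ] ℂ) :
    St.IsTwistedTrace α f ↔ IsTwistedTrace α f := Iff.rfl

theorem st_cohomology_iff (n : ℕ) :
    St.Alternates n (St.cocycles A n) (St.coboundaries A n) (St.Traces A) ↔
      (Even n → Nonempty (CyclicCohomology A n ≃L[ℂ] Traces A)) ∧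
        (Odd n → Subsingleton (CyclicCohomology A n)) := by
  cases n <;> exact Iff.rfl

theorem st_homology_iff (n : ℕ) :
    St.Alternates n (St.cycles A n) (St.closedRange (St.cycBd A n)) (St.Quo (St.commClosure A)) ↔
      (Even n → Nonempty (CyclicHomology A n ≃L[ℂ] A ⧸ commClosure A)) ∧
        (Odd n → Subsingleton (CyclicHomology A n)) := by
  cases n <;> exact Iff.rfl

theorem st_traceDescription_iff : St.TraceDescription A ↔ TraceDescription A := by
  refine forall_congr' fun n => ?_
  rw [st_cohomology_iff, st_homology_iff]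
  tauto

end Pool.Agent.Lib.MP_08bba9_an
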