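import Pool.Agent.Lib.MP_08bba9_an.Defs

/-! Banach cyclic cohomology and homology, the trace description and amenability. -/

noncomputable section

namespace Pool.Agent.Lib.MP_08bba9_an.St

open scoped TensorProduct

section linear

variable {V W : Type*} [SeminormedAddCommGroup V] [NormedSpace ℂ V] [SeminormedAddCommGroup W]
  [NormedSpace ℂ W]

/-- The set of vectors with the property `P` is a linear subspace. -/
structure IsSubspace (P : V → Prop) : Prop where
  zero : P 0
  add : ∀ x y, P x → P y → P (x + y)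
  smul : ∀ (c : ℂ) x, P x → P (c • x)

/-- The linear subspace of the vectors with the property `P`. -/
def IsSubspace.sub {P : V → Prop} (h : IsSubspace P) : Submodule ℂ V where
  carrier := {x | P x}
  add_mem' := h.add _ _
  zero_mem' := h.zero
  smul_mem' := h.smul

/-- The kernel of `d`. -/
def kernel (d : V →ₗ[ℂ] W) : Submodule ℂ V := LinearMap.ker d

/-- The vectors of `C` killed by `d`. -/
def kerIn (C : Submodule ℂ V) (d : V →ₗ[ℂ] W) : Submodule ℂ V := C ⊓ LinearMap.ker d

/-- The image of `C` under `d`. -/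
def image (C : Submodule ℂ V) (d : V →ₗ[ℂ] W) : Submodule ℂ W := C.map d

/-- The closure of the range of `d`. -/
def closedRange (d : V →ₗ[ℂ] W) : Submodule ℂ W := (LinearMap.range d).topologicalClosure

/-- The range of `1 - t`. -/
def rangeOneSub (t : V →L[ℂ] V) : Submodule ℂ V := (1 - t).range

/-- The quotient `Z / (B ∩ Z)` with the quotient topology. -/
abbrev SubQuot (Z B : Submodule ℂ V) := Z ⧸ B.submoduleOf Z

/-- The quotient `Z / (B ∩ Z)` is topologically isomorphic to `X` if `n` is even and is zero if `n`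
is odd. -/
def Alternates (n : ℕ) (Z B : Submodule ℂ V) (X : Type*) [SeminormedAddCommGroup X]
    [NormedSpace ℂ X] : Prop :=
  (Even n → Nonempty (SubQuot Z B ≃L[ℂ] X)) ∧ (Odd n → Subsingleton (SubQuot Z B))

/-- The quotient space `V / R` with the quotient seminorm. -/
def Quo (R : Submodule ℂ V) := V ⧸ R

instance quoGroup (R : Submodule ℂ V) : SeminormedAddCommGroup (Quo R) :=
  Submodule.Quotient.seminormedAddCommGroup R

instance quoSpace (R : Submodule ℂ V) : NormedSpace ℂ (Quo R) :=
  Submodule.Quotient.normedSpace R ℂ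

/-- The operator `b` maps `R` into `S`. -/
def MapsInto (b : V →L[ℂ] W) (R : Submodule ℂ V) (S : Submodule ℂ W) : Prop :=
  R ≤ S.comap b.toLinearMap

/-- The map `V / R → W / S` induced by `b`. -/
def MapsInto.quo {b : V →L[ℂ] W} {R : Submodule ℂ V} {S : Submodule ℂ W} (h : MapsInto b R S) :
    Quo R →ₗ[ℂ] Quo S :=
  R.mapQ S b.toLinearMap h

/-- The canonical map of a seminormed space to its completion. -/
def toCompl : V →L[ℂ] UniformSpace.Completion V := UniformSpace.Completion.toComplL

/-- The extension of a bounded operator to the completion. -/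
def ofCompl {F : Type*} [NormedAddCommGroup F] [NormedSpace ℂ F] [CompleteSpace F]
    (L : V →L[ℂ] F) : UniformSpace.Completion V →L[ℂ] F :=
  L.fromCompletion

/-- The value of a linear isometry. -/
def isoAt (e : V ≃ₗᵢ[ℂ] W) (x : V) : W := e x

end linear

section tensor

variable {ι : Type} [Fintype ι] (M : ι → Type*) [∀ i, SeminormedAddCommGroup (M i)]
  [∀ i, NormedSpace ℂ (M i)]

/-- The algebraic tensor product with the projective seminorm. -/
def PreTensor := ⨂[ℂ] i, M i

instance preGroup : SeminormedAddCommGroup (PreTensor M) :=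
  PiTensorProduct.instSeminormedAddCommGroup

instance preSpace : NormedSpace ℂ (PreTensor M) := PiTensorProduct.instNormedSpace

/-- The completed projective tensor product of a finite family of normed spaces. -/
def Tensor := UniformSpace.Completion (PreTensor M)

instance tensorGroup : NormedAddCommGroup (Tensor M) :=
  UniformSpace.Completion.instNormedAddCommGroup _

instance tensorSpace : NormedSpace ℂ (Tensor M) := UniformSpace.Completion.instNormedSpace _ _

instance tensorComplete : CompleteSpace (Tensor M) := UniformSpace.Completion.completeSpace _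

/-- The canonical multilinear map `(aᵢ) ↦ ⨂ aᵢ`. -/
def tens : ContinuousMultilinearMap ℂ M (Tensor M) :=
  (toCompl (V := PreTensor M)).compContinuousMultilinearMap (PiTensorProduct.tprodL ℂ)

variable {M} in
/-- The bounded operator on the tensor product defined by a bounded multilinear map. -/
def lin {F : Type*} [NormedAddCommGroup F] [NormedSpace ℂ F] [CompleteSpace F]
    (f : ContinuousMultilinearMap ℂ M F) : Tensor M →L[ℂ] F :=
  ofCompl (V := PreTensor M) (isoAt (PiTensorProduct.liftIsometry ℂ M F) f)

end tensor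

section maps

variable {A F : Type*} [NormedRing A] [NormedAlgebra ℂ A] [NormedAddCommGroup F] [NormedSpace ℂ F]
  {n : ℕ}

/-- The Hochschild coboundary `(b f)(a₀, …, aₙ₊₁) = ∑ (-1)^i f(face i a)`. -/
def cobFun (f : Multi A F n) : Multi A F (n + 1) :=
  ∑ i : Fin (n + 2), (-1 : ℂ) ^ (i : ℕ) • faceMap i f

/-- The signed cyclic permutation `(t f)(a₀, …, aₙ) = (-1)^n f(aₙ, a₀, …, aₙ₋₁)`. -/
def cycFun (f : Multi A F n) : Multi A F n :=
  (-1 : ℂ) ^ n • f.domDomCongr (finRotate (n + 1)).symm

/-- Cyclicity: `φ(a₁, …, aₙ, a₀) = (-1)^n φ(a₀, …, aₙ)`. -/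
def IsCyclic (φ : Multi A ℂ n) : Prop := ∀ a, φ (fun i => a (i + 1)) = (-1) ^ n * φ a

/-- Bounded traces: `f(ab) = f(ba)`. -/
def IsTrace (f : A →L[ℂ] ℂ) : Prop := ∀ a b, f (a * b) = f (b * a)

/-- A bounded trace twisted by `α`: `f(ab) = f(b α(a))`. -/
def IsTwistedTrace (α : A → A) (f : A →L[ℂ] ℂ) : Prop := ∀ a b, f (a * b) = f (b * α a)

end maps

variable (A : Type*) [NormedRing A] [NormedAlgebra ℂ A]

/-- Bounded `(n+1)`-linear functionals on `A` with the operator norm. -/
def Cochain (n : ℕ) := Multi A ℂ n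

instance cochainGroup (n : ℕ) : SeminormedAddCommGroup (Cochain A n) :=
  ContinuousMultilinearMap.seminormedAddCommGroup

instance cochainSpace (n : ℕ) : NormedSpace ℂ (Cochain A n) := ContinuousMultilinearMap.normedSpace

theorem cobFun_linear (n : ℕ) : IsLinearMap ℂ (M := Cochain A n) (M₂ := Cochain A (n + 1)) cobFun :=
  ⟨(cob (F := ℂ)).map_add, (cob (F := ℂ)).map_smul⟩

theorem isCyclic_sub (n : ℕ) : IsSubspace (V := Cochain A n) IsCyclic :=
  (⟨fun _ => by simp, fun f g hf hg a => by simp [hf a, hg a, mul_add],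
    fun c f hf a => by simp [hf a, mul_left_comm c]⟩ : IsSubspace (V := Multi A ℂ n) IsCyclic)

theorem isTrace_sub : IsSubspace (V := A →L[ℂ] ℂ) IsTrace :=
  ⟨fun _ _ => rfl, fun f g hf hg a b => by simp [hf a b, hg a b],
    fun c f hf a b => by simp [hf a b]⟩

/-- The space `T(A)` of bounded traces. -/
def Traces : Submodule ℂ (A →L[ℂ] ℂ) := (isTrace_sub A).sub

/-- The norm closure of `[A, A]`. -/
def commClosure : Submodule ℂ A :=
  (Submodule.span ℂ {x | ∃ a b : A, x = a * b - b * a}).topologicalClosure

/-- The Hochschild coboundary as a linear map. -/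
def cochainCob (n : ℕ) : Cochain A n →ₗ[ℂ] Cochain A (n + 1) := (cobFun_linear A n).mk' _

/-- Cyclic cochains. -/
def cyclicCochains (n : ℕ) : Submodule ℂ (Cochain A n) := (isCyclic_sub A n).sub

/-- Cyclic cocycles. -/
def cocycles (n : ℕ) : Submodule ℂ (Cochain A n) := kerIn (cyclicCochains A n) (cochainCob A n)

/-- Cyclic coboundaries. -/
def coboundaries : ∀ n : ℕ, Submodule ℂ (Cochain A n)
  | 0 => ⊥
  | n + 1 => image (cyclicCochains A n) (cochainCob A n)

/-- The completed projective tensor power of `n + 1` copies of `A`. -/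
def Chain (n : ℕ) := Tensor fun _ : Fin (n + 1) => A

instance chainGroup (n : ℕ) : NormedAddCommGroup (Chain A n) := tensorGroup _

instance chainSpace (n : ℕ) : NormedSpace ℂ (Chain A n) := tensorSpace _

instance chainComplete (n : ℕ) : CompleteSpace (Chain A n) := tensorComplete _

/-- The canonical multilinear map `(a₀, …, aₙ) ↦ a₀ ⊗ ⋯ ⊗ aₙ`. -/
def chainTens (n : ℕ) : Multi A (Chain A n) n := tens _

variable {A} in
/-- The bounded operator on the tensor power defined by a bounded multilinear map. -/
def chainLin {F : Type*} [NormedAddCommGroup F] [NormedSpace ℂ F] [CompleteSpace F] {n : ℕ}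
    (f : Multi A F n) : Chain A n →L[ℂ] F :=
  lin f

/-- The Hochschild boundary `b`. -/
def bd (n : ℕ) : Chain A (n + 1) →L[ℂ] Chain A n := chainLin (cobFun (chainTens A n))

/-- The range of `1 - t`, with `t(a₀ ⊗ ⋯ ⊗ aₙ) = (-1)^n aₙ ⊗ a₀ ⊗ ⋯ ⊗ aₙ₋₁`. -/
def cycRange (n : ℕ) : Submodule ℂ (Chain A n) := rangeOneSub (chainLin (cycFun (chainTens A n)))

theorem bd_cycRange (n : ℕ) : MapsInto (bd A n) (cycRange A (n + 1)) (cycRange A n) :=
  Pool.Agent.Lib.MP_08bba9_an.bd_cycRange

/-- The predual of the cyclic complex: the tensor power modulo the range of `1 - t`. -/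
abbrev CycChain (n : ℕ) := Quo (cycRange A n)

/-- The boundary of the cyclic complex. -/
def cycBd (n : ℕ) : CycChain A (n + 1) →ₗ[ℂ] CycChain A n := (bd_cycRange A n).quo

/-- Cyclic cycles. -/
def cycles : ∀ n : ℕ, Submodule ℂ (CycChain A n)
  | 0 => ⊤
  | n + 1 => kernel (cycBd A n)

/-- The trace description of the cyclic cohomology and of the Hausdorff cyclic homology. -/
def TraceDescription : Prop := ∀ n : ℕ,
  Alternates n (cocycles A n) (coboundaries A n) (Traces A) ∧
    Alternates n (cycles A n) (closedRange (cycBd A n)) (Quo (commClosure A))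

variable {A} in
/-- The left action `a · (x ⊗ y) = ax ⊗ y` on the completed projective tensor square. -/
def leftAct (a : A) : Chain A 1 →L[ℂ] Chain A 1 :=
  chainLin ((chainTens A 1).compContinuousLinearMap ![ContinuousLinearMap.mul ℂ A a, 1])

variable {A} in
/-- The right action `(x ⊗ y) · a = x ⊗ ya` on the completed projective tensor square. -/
def rightAct (a : A) : Chain A 1 →L[ℂ] Chain A 1 :=
  chainLin ((chainTens A 1).compContinuousLinearMap ![1, (ContinuousLinearMap.mul ℂ A).flip a])

/-- The multiplication map `π(x ⊗ y) = xy` on the completed projective tensor square. -/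
def mulMap [CompleteSpace A] : Chain A 1 →L[ℂ] A :=
  chainLin (ContinuousMultilinearMap.mkPiAlgebraFin ℂ 2 A)

/-- Amenability of a unital Banach algebra (Johnson): there is a bounded approximate diagonal in the
completed projective tensor square, `π(m) → 1` and `a · m - m · a → 0`. -/
def IsAmenable [CompleteSpace A] : Prop :=
  ∃ K : ℝ, ∀ (S : Finset A) (ε : ℝ), 0 < ε → ∃ m : Chain A 1, ‖m‖ ≤ K ∧
    ‖mulMap A m - 1‖ ≤ ε ∧ ∀ a ∈ S, ‖leftAct a m - rightAct a m‖ ≤ ε

end Pool.Agent.Lib.MP_08bba9_an.St
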